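import Pool.Agent.W418.LCI.Field

/-! Modifications of the base on which finitely many functions are pairwise comparable. -/

set_option autoImplicit false
set_option linter.unusedSectionVars false

universe u

namespace Pool.Agent.Q40.RS

open Pool.Agent.W558 Pool.Agent.W418.LCI

variable {k E : Type u} [Field k] [Field E] [Algebra k E]

section cmp

variable {R0 R : Subalgebra k E} {T I G : Type} [Fintype I]

lemma fn_cmp {M : LM R0 R T I} {g : G → E} {Γ : G → I → ℤ} (hF : Fn M g Γ) (a b : G) (t : T)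
    (h : ∀ i, Γ b i ≤ Γ a i ∨ (M.x t i)⁻¹ ∈ M.A t) : g a / g b ∈ M.A t := by
  obtain ⟨w, hw0, hw, hwi, h1⟩ := hF a t
  obtain ⟨w', hw0', hw', hwi', h1'⟩ := hF b t
  have h2 : g a / g b = w * w'⁻¹ * ∏ i, M.x t i ^ (Γ a i - Γ b i) := by
    have h3 : ∏ i, M.x t i ^ (Γ a i - Γ b i) =
        (∏ i, M.x t i ^ Γ a i) / ∏ i, M.x t i ^ Γ b i := by
      rw [← Finset.prod_div_distrib]
      exact Finset.prod_congr rfl fun i _ => zpow_sub₀ (M.x0 t i) _ _
    rw [h1, h1', h3]
    have h4 : ∏ i, M.x t i ^ Γ b i ≠ 0 :=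
      Finset.prod_ne_zero_iff.2 fun i _ => zpow_ne_zero _ (M.x0 t i)
    field_simp
  rw [h2]
  refine (M.A t).mul_mem ((M.A t).mul_mem hw hwi') (Subalgebra.prod_mem _ fun i _ => ?_)
  rcases h i with h | h
  · obtain ⟨n, hn⟩ := Int.eq_ofNat_of_zero_le (sub_nonneg.2 h)
    rw [hn]
    change M.x t i ^ (n : ℤ) ∈ _
    rw [zpow_natCast]
    exact (M.A t).pow_mem (M.xA t i) n
  · obtain ⟨n, hn | hn⟩ := Int.eq_nat_or_neg (Γ a i - Γ b i)
    · rw [hn, zpow_natCast]
      exact (M.A t).pow_mem (M.xA t i) n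
    · rw [hn, zpow_neg, zpow_natCast, ← inv_pow]
      exact (M.A t).pow_mem h n

end cmp

/-- A modification of `Spec R0` (or, without the condition on `R0`, a smooth projective model) on
which the given functions are pairwise comparable. -/
theorem exists_cmp_proj (hE : HasLM k E) (G : Type) [Fintype G] (g : G → E)
    (hg : ∀ a, g a ≠ 0) :
    ∃ (T I : Type) (_ : Finite T) (_ : Fintype I) (M : LM (⊥ : Subalgebra k E) ⊤ T I),
      ∀ t a b, g a / g b ∈ M.A t ∨ g b / g a ∈ M.A t := by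
  classical
  obtain ⟨T, I, hT, hI, M, Γ, hF, hfr⟩ := hE G g hg
  obtain ⟨T', I', hT', hI', _, M', Γ', hExt, hC⟩ := princ_all g M Γ
  refine ⟨T', I', hT', hI', M', fun t a b => ?_⟩
  rcases hC a b t with h | h
  · exact Or.inr (fn_cmp (hExt.fn hF) b a t h)
  · exact Or.inl (fn_cmp (hExt.fn hF) a b t h)

theorem exists_cmp (hE : HasLM k E) (R0 : Subalgebra k E) (hfg : R0.FG)
    (hfr : ∀ x : E, ∃ a ∈ R0, ∃ b ∈ R0, b ≠ 0 ∧ x = a * b⁻¹) (G : Type) [Fintype G] (g : G → E)
    (hg : ∀ a, g a ≠ 0) :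
    ∃ (T I : Type) (_ : Finite T) (_ : Fintype I) (M : LM R0 R0 T I),
      ∀ t a b, g a / g b ∈ M.A t ∨ g b / g a ∈ M.A t := by
  classical
  obtain ⟨S, hS⟩ := hfg
  let S' : Finset E := S.erase 0
  have hS' : Algebra.adjoin k (S' : Set E) = R0 := by
    rw [← hS]
    apply le_antisymm
    · exact Algebra.adjoin_mono (by exact_mod_cast Finset.erase_subset _ _)
    · refine Algebra.adjoin_le fun x hx => ?_
      by_cases h0 : x = 0
      · rw [h0]; exact Subalgebra.zero_mem _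
      · exact Algebra.subset_adjoin (Finset.mem_coe.2 (Finset.mem_erase.2 ⟨h0, hx⟩))
  let q := S'.equivFin
  let G' : Type := Fin S'.card ⊕ G
  let g' : G' → E := Sum.elim (fun i => ((q.symm i).1 : E)) g
  have hg' : ∀ a, g' a ≠ 0 := by
    rintro (i | a)
    · exact (Finset.mem_erase.1 (q.symm i).2).1
    · exact hg a
  obtain ⟨T, I, hT, hI, M, Γ, hF, hfr'⟩ := hE G' g' hg'
  have hR : R0 = Algebra.adjoin k (g' '' (Set.range Sum.inl)) := by
    rw [← hS']
    congr 1
    ext x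
    constructor
    · intro hx
      refine ⟨Sum.inl (q ⟨x, hx⟩), ⟨_, rfl⟩, ?_⟩
      change ((q.symm (q ⟨x, hx⟩)).1 : E) = x
      rw [Equiv.symm_apply_apply]
    · rintro ⟨_, ⟨i, rfl⟩, rfl⟩
      exact (q.symm i).2
  obtain ⟨T1, I1, hT1, hI1, M1, Γ1, hF1, -⟩ :=
    all_restr k E T I G' M g' Γ hF (Set.range Sum.inl) R0 hR hfr
  obtain ⟨T', I', hT', hI', _, M', Γ', hExt, hC⟩ := princ_all g' M1 Γ1
  refine ⟨T', I', hT', hI', M', fun t a b => ?_⟩
  rcases hC (Sum.inr a) (Sum.inr b) t with h | h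
  · exact Or.inr (fn_cmp (hExt.fn hF1) (Sum.inr b) (Sum.inr a) t h)
  · exact Or.inl (fn_cmp (hExt.fn hF1) (Sum.inr a) (Sum.inr b) t h)

/-- A generator of the ideal. -/
theorem exists_min (A : Subalgebra k E) {G : Type*} (s : Finset G) (hs : s.Nonempty) (g : G → E)
    (hg : ∀ a, g a ≠ 0) (h : ∀ a b, g a / g b ∈ A ∨ g b / g a ∈ A) :
    ∃ i ∈ s, ∀ j ∈ s, g j / g i ∈ A := by
  classical
  induction hs using Finset.Nonempty.cons_induction with
  | singleton a =>
    refine ⟨a, Finset.mem_singleton_self a, fun j hj => ?_⟩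
    rw [Finset.mem_singleton.1 hj, div_self (hg a)]
    exact A.one_mem
  | cons a s ha hs ih =>
    obtain ⟨i, hi, h1⟩ := ih
    rcases h a i with h2 | h2
    · refine ⟨i, Finset.mem_cons.2 (Or.inr hi), fun j hj => ?_⟩
      rcases Finset.mem_cons.1 hj with rfl | hj
      · exact h2
      · exact h1 j hj
    · refine ⟨a, Finset.mem_cons_self a s, fun j hj => ?_⟩
      rcases Finset.mem_cons.1 hj with rfl | hj
      · rw [div_self (hg _)]; exact A.one_mem
      · have h3 : g j / g a = (g j / g i) * (g i / g a) := by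
          have := hg i
          field_simp
        rw [h3]
        exact A.mul_mem (h1 j hj) h2

end Pool.Agent.Q40.RS
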