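import Pool.Agent.Q40.RS.Fol
import Pool.Agent.Q40.RS.Base

/-! The projective version: smooth projective models of the field of constants of a relative
foliation of a smooth projective family over a projective variety with log smooth models. -/

set_option autoImplicit false
set_option linter.unusedSectionVars false

universe u

namespace Pool.Agent.Q40.RS

open Pool.Agent.W558 Pool.Agent.H920R2 Pool.Agent.W418.LCI

/-- The coordinate ring `k[s 0 / s j, ..., s m / s j]` of the chart `s j ≠ 0` of the projective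
variety with the homogeneous coordinates `s`. -/
noncomputable def bch (k : Type) [Field k] {E : Type} [Field E] [Algebra k E] {m : ℕ}
    (s : Fin (m + 1) → E) (j : Fin (m + 1)) : Subalgebra k E :=
  Algebra.adjoin k (Set.range fun i => s i / s j)

/-- The coordinate ring of the chart `s j ≠ 0`, `h a ≠ 0` of the projective scheme with the
homogeneous coordinates `h` over the projective variety with the homogeneous coordinates `s`. -/
noncomputable def xch (k : Type) [Field k] {E L : Type} [Field E] [Field L] [Algebra k L]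
    [Algebra E L] {m n : ℕ} (s : Fin (m + 1) → E) (h : Fin (n + 1) → L) (j : Fin (m + 1))
    (a : Fin (n + 1)) : Subalgebra k L :=
  Algebra.adjoin k ((Set.range fun i => algebraMap E L (s i / s j)) ∪ Set.range fun b => h b / h a)

section

variable {k E L : Type} [Field k] [Field E] [Field L] [Algebra k E] [Algebra k L] [Algebra E L]
  [IsScalarTower k E L] {m n : ℕ} (s : Fin (m + 1) → E) (h : Fin (n + 1) → L)

lemma bch_xch (j : Fin (m + 1)) (a : Fin (n + 1)) (x : E) (hx : x ∈ bch k s j) :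
    algebraMap E L x ∈ xch k s h j a := by
  have h1 : bch k s j ≤ (xch k s h j a).comap (IsScalarTower.toAlgHom k E L) := by
    refine Algebra.adjoin_le ?_
    rintro _ ⟨i, rfl⟩
    exact Algebra.subset_adjoin (Or.inl ⟨i, rfl⟩)
  exact h1 hx

/-- The morphism of charts. -/
noncomputable def rho (j : Fin (m + 1)) (a : Fin (n + 1)) : bch k s j →+* xch k s h j a :=
  ((algebraMap E L).comp (bch k s j).val.toRingHom).codRestrict (xch k s h j a)
    (fun x => bch_xch s h j a x.1 x.2)

lemma rho_coe (j : Fin (m + 1)) (a : Fin (n + 1)) (x : bch k s j) :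
    (rho s h j a x : L) = algebraMap E L x := rfl

/-- The degeneracy ideal on a chart. -/
noncomputable def dgi (B : Subalgebra k L) {r : ℕ} (D : Fin r → Derivation k L L) : Ideal B :=
  Ideal.span {b : B | ∃ c : Fin r → B, (b : L) = dd D (fun i => (c i : L))}

/-- The pure part of the chart. -/
noncomputable def fch (k : Type) [Field k] {L : Type} [Field L] [Algebra k L] {n : ℕ}
    (h : Fin (n + 1) → L) (a : Fin (n + 1)) : Subalgebra k L :=
  Algebra.adjoin k (Set.range fun b => h b / h a)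

lemma mulA_xch {A : Subalgebra k E} (j : Fin (m + 1)) (a : Fin (n + 1)) (hA : bch k s j ≤ A) :
    mulA A (xch k s h j a) = mulA A (fch k h a) := by
  apply le_antisymm
  · refine mulA_le (fun x hx => le_mulA _ hx) (Algebra.adjoin_le ?_)
    rintro _ (⟨i, rfl⟩ | ⟨b, rfl⟩)
    · exact le_mulA _ (hA (Algebra.subset_adjoin ⟨i, rfl⟩))
    · exact le_mulA' _ (Algebra.subset_adjoin ⟨b, rfl⟩)
  · refine mulA_le (fun x hx => le_mulA _ hx) (Algebra.adjoin_le ?_)
    rintro _ ⟨b, rfl⟩
    exact le_mulA' _ (Algebra.subset_adjoin (Or.inr ⟨b, rfl⟩))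

lemma fch_glue (hh : ∀ a, h a ≠ 0) (a a' : Fin (n + 1)) {x : L} (hx : x ∈ fch k h a') :
    ∃ N : ℕ, ∀ N', N ≤ N' → (h a' / h a) ^ N' * x ∈ fch k h a := by
  have hr : ∀ b, h b / h a ∈ fch k h a := fun b => Algebra.subset_adjoin ⟨b, rfl⟩
  induction hx using Algebra.adjoin_induction with
  | mem x hx =>
    obtain ⟨b, rfl⟩ := hx
    refine ⟨1, fun N' hN' => ?_⟩
    obtain ⟨e, rfl⟩ := Nat.exists_eq_add_of_le hN'
    have h1 : (h a' / h a) ^ (1 + e) * (h b / h a') = (h a' / h a) ^ e * (h b / h a) := by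
      have := hh a'
      rw [pow_add, pow_one]
      field_simp
    change (h a' / h a) ^ (1 + e) * (h b / h a') ∈ _
    rw [h1]
    exact Subalgebra.mul_mem _ (Subalgebra.pow_mem _ (hr _) _) (hr _)
  | algebraMap c =>
    exact ⟨0, fun N' _ => Subalgebra.mul_mem _ (Subalgebra.pow_mem _ (hr _) _)
      (Subalgebra.algebraMap_mem _ c)⟩
  | add x y _ _ hx hy =>
    obtain ⟨N, hN⟩ := hx
    obtain ⟨M, hM⟩ := hy
    refine ⟨N + M, fun N' hN' => ?_⟩
    rw [mul_add]
    exact Subalgebra.add_mem _ (hN N' (by omega)) (hM N' (by omega))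
  | mul x y _ _ hx hy =>
    obtain ⟨N, hN⟩ := hx
    obtain ⟨M, hM⟩ := hy
    refine ⟨N + M, fun N' hN' => ?_⟩
    obtain ⟨e, rfl⟩ := Nat.exists_eq_add_of_le hN'
    have h1 : (h a' / h a) ^ (N + M + e) * (x * y) =
        ((h a' / h a) ^ (N + e) * x) * ((h a' / h a) ^ M * y) := by ring
    rw [h1]
    exact Subalgebra.mul_mem _ (hN _ (by omega)) (hM _ le_rfl)

/-- Restriction of a subalgebra to a subfield containing it. -/
lemma smooth_comap (K : IntermediateField k L) (S : Subalgebra k L) (hS : ∀ x ∈ S, x ∈ K)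
    (h : Algebra.Smooth k S) : Algebra.Smooth k (S.comap K.val) := by
  let e : (S.comap K.val) ≃ₐ[k] S :=
    AlgEquiv.ofBijective
      ({ toFun := fun x => ⟨(x.1 : L), x.2⟩
         map_one' := rfl
         map_mul' := fun _ _ => rfl
         map_zero' := rfl
         map_add' := fun _ _ => rfl
         commutes' := fun _ => rfl } : (S.comap K.val) →ₐ[k] S)
      ⟨fun x y hxy => Subtype.ext (Subtype.ext (congrArg (Subtype.val : S → L) hxy)),
        fun y => ⟨⟨⟨y.1, hS _ y.2⟩, y.2⟩, rfl⟩⟩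
  exact Algebra.Smooth.of_equiv e.symm

/-- The valuation ring of `L` of the elements whose `p`-th powers are in the valuation ring `V`. -/
noncomputable def vroot {p : ℕ} (hp : p.Prime) (hpL : (p : L) = 0) (K : IntermediateField k L)
    (hK : ∀ x : L, x ^ p ∈ K) (V : ValuationSubring K) : ValuationSubring L where
  carrier := {x | (⟨x ^ p, hK x⟩ : K) ∈ V}
  mul_mem' := by
    intro x y hx hy
    have h1 : (⟨(x * y) ^ p, hK _⟩ : K) = ⟨x ^ p, hK x⟩ * ⟨y ^ p, hK y⟩ :=
      Subtype.ext (mul_pow x y p)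
    change (⟨(x * y) ^ p, hK _⟩ : K) ∈ V
    rw [h1]
    exact V.mul_mem _ _ hx hy
  one_mem' := by
    have h1 : (⟨(1 : L) ^ p, hK _⟩ : K) = 1 := Subtype.ext (one_pow p)
    change (⟨(1 : L) ^ p, hK _⟩ : K) ∈ V
    rw [h1]
    exact V.one_mem
  add_mem' := by
    intro x y hx hy
    have hchar : CharP L p := (CharP.charP_iff_prime_eq_zero hp).2 hpL
    have : Fact p.Prime := ⟨hp⟩
    have h1 : (⟨(x + y) ^ p, hK _⟩ : K) = ⟨x ^ p, hK x⟩ + ⟨y ^ p, hK y⟩ :=
      Subtype.ext (add_pow_char x y p)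
    change (⟨(x + y) ^ p, hK _⟩ : K) ∈ V
    rw [h1]
    exact V.add_mem _ _ hx hy
  zero_mem' := by
    have h1 : (⟨(0 : L) ^ p, hK _⟩ : K) = 0 := Subtype.ext (zero_pow hp.ne_zero)
    change (⟨(0 : L) ^ p, hK _⟩ : K) ∈ V
    rw [h1]
    exact V.zero_mem
  neg_mem' := by
    intro x hx
    have hchar : CharP L p := (CharP.charP_iff_prime_eq_zero hp).2 hpL
    have : Fact p.Prime := ⟨hp⟩
    have h1 : (⟨(-x) ^ p, hK _⟩ : K) = - ⟨x ^ p, hK x⟩ := by
      apply Subtype.ext
      change (-x) ^ p = -(x ^ p)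
      have h2 := add_pow_char (-x) x p
      rw [neg_add_cancel, zero_pow hp.ne_zero] at h2
      exact eq_neg_of_add_eq_zero_left h2.symm
    change (⟨(-x) ^ p, hK _⟩ : K) ∈ V
    rw [h1]
    exact V.neg_mem _ hx
  mem_or_inv_mem' := by
    intro x
    have h1 : (⟨(x⁻¹) ^ p, hK _⟩ : K) = (⟨x ^ p, hK x⟩)⁻¹ := Subtype.ext (inv_pow x p)
    rcases V.mem_or_inv_mem (⟨x ^ p, hK x⟩ : K) with h2 | h2
    · exact Or.inl h2
    · right
      change (⟨(x⁻¹) ^ p, hK _⟩ : K) ∈ V
      rw [h1]
      exact h2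

/-- The elements which are killed by all elements of `F`. -/
def cF (F : Submodule L (Derivation k L L)) : Subalgebra k L where
  carrier := {x | ∀ X ∈ F, X x = 0}
  mul_mem' := by
    intro x y hx hy X hX
    rw [Derivation.leibniz, hx X hX, hy X hX, smul_zero, smul_zero, add_zero]
  add_mem' := by
    intro x y hx hy X hX
    rw [map_add, hx X hX, hy X hX, add_zero]
  algebraMap_mem' := fun c X _ => X.map_algebraMap c

lemma csts_eq_cF {r : ℕ} (D : Fin r → Derivation k L L) (F : Submodule L (Derivation k L L))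
    (hDF : Submodule.span L (Set.range D) = F) : csts D = cF F := by
  ext x
  rw [mem_csts]
  constructor
  · intro h X hX
    rw [← hDF] at hX
    obtain ⟨a, rfl⟩ := (Submodule.mem_span_range_iff_exists_fun L).1 hX
    rw [der_sum_apply]
    refine Finset.sum_eq_zero fun i _ => ?_
    rw [Derivation.coe_smul, Pi.smul_apply, h i, smul_zero]
  · intro h i
    exact h (D i) (hDF ▸ Submodule.subset_span ⟨i, rfl⟩)

/-- The model of the field of constants. -/
theorem main_proj {p : ℕ} (hp : p.Prime) (hpk : (p : k) = 0) (hE : HasLM k E)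
    (hs : ∀ j, s j ≠ 0) (hh : ∀ a, h a ≠ 0)
    (hEfr : ∀ j (x : E), ∃ a ∈ bch k s j, ∃ b ∈ bch k s j, b ≠ 0 ∧ x = a / b)
    (hLfr : ∀ j a (x : L), ∃ y ∈ xch k s h j a, ∃ z ∈ xch k s h j a, z ≠ 0 ∧ x = y / z)
    (hsm : ∀ j a, (rho (k := k) s h j a).Smooth) (F : Submodule L (Derivation k L L))
    (hF : IsRLie p F) (hFE : ∀ X ∈ F, ∀ x : E, X (algebraMap E L x) = 0) {r : ℕ}
    (D : Fin (m + 1) → Fin (n + 1) → Fin r → Derivation k L L)
    (hDF : ∀ j a, Submodule.span L (Set.range (D j a)) = F)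
    (hDB : ∀ i j a, ∀ b ∈ xch k s h j a, D j a i b ∈ xch k s h j a)
    (I : ∀ j : Fin (m + 1), Fin (n + 1) → Ideal (bch k s j)) (hI0 : ∀ j a, I j a ≠ ⊥)
    (hI : ∀ j a, dgi (xch k s h j a) (D j a) = (I j a).map (rho s h j a))
    (K : IntermediateField k L) (hK : ∀ x, x ∈ K ↔ ∀ X ∈ F, X x = 0) :
    ∃ (T : Type) (_ : Finite T) (M : LM (⊥ : Subalgebra k K) ⊤ T Empty),
      ∀ t (x : K), ∃ y ∈ M.A t, ∃ y' ∈ M.A t, y' ≠ 0 ∧ x = y / y' := by
  classical
  have hpL : ((p : ℕ) : L) = 0 := by rw [← map_natCast (algebraMap k L), hpk, map_zero]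
  have hcs : ∀ j a, csts (D j a) = cF F := fun j a => csts_eq_cF _ F (hDF j a)
  -- generators of the ideals
  have hgen : ∀ j a, ∃ S : Finset (bch k s j), Ideal.span (S : Set (bch k s j)) = I j a ∧
      0 ∉ S ∧ S.Nonempty := by
    intro j a
    have hft : Algebra.FiniteType k (bch k s j) := by
      refine (Subalgebra.fg_iff_finiteType _).1 ?_
      exact Subalgebra.fg_def.2 ⟨_, Set.finite_range _, rfl⟩
    have hnoe : IsNoetherianRing (bch k s j) := Algebra.FiniteType.isNoetherianRing k _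
    obtain ⟨S0, hS0⟩ : (I j a).FG := IsNoetherian.noetherian (I j a)
    have hS : Ideal.span ((S0.erase 0 : Finset (bch k s j)) : Set (bch k s j)) = I j a := by
      rw [← hS0]
      apply le_antisymm
      · exact Ideal.span_mono (by exact_mod_cast Finset.erase_subset _ _)
      · refine Ideal.span_le.2 fun x hx => ?_
        by_cases h0 : x = 0
        · rw [h0]; exact Ideal.zero_mem _
        · exact Ideal.subset_span (Finset.mem_coe.2 (Finset.mem_erase.2 ⟨h0, hx⟩))
    refine ⟨S0.erase 0, hS, Finset.notMem_erase _ _, ?_⟩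
    rw [Finset.nonempty_iff_ne_empty]
    intro h
    apply hI0 j a
    rw [← hS, h]
    simp
  choose S hS hS0 hSne using hgen
  let G : Type := Fin (m + 1) ⊕ (Σ q : Fin (m + 1) × Fin (n + 1), {x // x ∈ S q.1 q.2})
  let g : G → E := Sum.elim s (fun q => ((q.2.1 : bch k s q.1.1) : E))
  have hg : ∀ b, g b ≠ 0 := by
    rintro (j | ⟨⟨j, a⟩, x, hx⟩)
    · exact hs j
    · intro h0
      have h1 : x = 0 := Subtype.ext h0
      exact hS0 j a (h1 ▸ hx)
  obtain ⟨T, I', hT, hI', M, hM⟩ := exists_cmp_proj hE G g hg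
  choose jt0 hjt0 hjt1 using fun t => exists_min (M.A t)
    (Finset.univ.image (Sum.inl : Fin (m + 1) → G)) (Finset.univ_nonempty.image _) g hg (hM t)
  have hjt2 : ∀ t, ∃ j : Fin (m + 1), (Sum.inl j : G) = jt0 t := fun t => by
    obtain ⟨j, -, hj⟩ := Finset.mem_image.1 (hjt0 t)
    exact ⟨j, hj⟩
  choose jt hjt using hjt2
  have hRt : ∀ t, bch k s (jt t) ≤ M.A t := by
    intro t
    refine Algebra.adjoin_le ?_
    rintro _ ⟨i, rfl⟩
    have h1 := hjt1 t (Sum.inl i) (Finset.mem_image.2 ⟨i, Finset.mem_univ i, rfl⟩)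
    rw [← hjt] at h1
    exact h1
  choose it0 hit0 hit1 using fun (t : T) (a : Fin (n + 1)) => exists_min (M.A t)
    ((S (jt t) a).attach.image fun x => (Sum.inr ⟨(jt t, a), x⟩ : G))
    ((Finset.attach_nonempty_iff.2 (hSne (jt t) a)).image _) g hg (hM t)
  have hit2 : ∀ t a, ∃ x : {x // x ∈ S (jt t) a}, (Sum.inr ⟨(jt t, a), x⟩ : G) = it0 t a :=
    fun t a => by
      obtain ⟨x, -, hx⟩ := Finset.mem_image.1 (hit0 t a)
      exact ⟨x, hx⟩
  choose it hit using hit2
  let f : T → Fin (n + 1) → E := fun t a => ((it t a).1 : bch k s (jt t))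
  have hf0 : ∀ t a, f t a ≠ 0 := fun t a => hg (Sum.inr ⟨(jt t, a), it t a⟩)
  have hdiv : ∀ t a, ∀ x ∈ S (jt t) a, (x : E) / f t a ∈ M.A t := by
    intro t a x hx
    have h1 := hit1 t a (Sum.inr ⟨(jt t, a), ⟨x, hx⟩⟩)
      (Finset.mem_image.2 ⟨⟨x, hx⟩, Finset.mem_attach _ _, rfl⟩)
    rw [← hit] at h1
    exact h1
  let Bt : T × Fin (n + 1) → Subalgebra k L := fun q => mulA (M.A q.1) (xch k s h (jt q.1) q.2)
  have hBt' : ∀ q, Bt q = mulA (M.A q.1) (fch k h q.2) := fun q =>
    mulA_xch s h (jt q.1) q.2 (hRt q.1)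
  have hdivB : ∀ t a, ∀ b ∈ (I (jt t) a).map (rho s h (jt t) a),
      (b : L) / algebraMap E L (f t a) ∈ Bt (t, a) := by
    intro t a b hb
    rw [← hS, Ideal.map_span] at hb
    induction hb using Submodule.span_induction with
    | mem x hx =>
      obtain ⟨x, hx, rfl⟩ := hx
      rw [rho_coe, ← map_div₀]
      exact le_mulA _ (hdiv t a x hx)
    | zero =>
      rw [ZeroMemClass.coe_zero, zero_div]
      exact Subalgebra.zero_mem _
    | add x y _ _ hx hy =>
      rw [Subalgebra.coe_add, add_div]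
      exact Subalgebra.add_mem _ hx hy
    | smul c x _ hx =>
      rw [smul_eq_mul, Subalgebra.coe_mul, mul_div_assoc]
      exact Subalgebra.mul_mem _ (le_mulA' _ c.2) hx
  have hBsm : ∀ q, Algebra.Smooth k (Bt q) := fun q =>
    smooth_mulA (M.A q.1) (bch k s (jt q.1)) (hRt q.1)
      (fun x => by
        obtain ⟨a, ha, b, hb, hb0, h1⟩ := hEfr (jt q.1) x
        exact ⟨a, ha, b, hb, hb0, by rw [h1, div_eq_mul_inv]⟩)
      (M.sm q.1) _ (rho s h (jt q.1) q.2) (fun x => rho_coe s h _ _ x) (hsm _ _)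
  have hEL : ∀ x : E, algebraMap E L x ∈ cF F := fun x X hX => hFE X hX x
  have hDE : ∀ j a i (x : E), D j a i (algebraMap E L x) = 0 := fun j a i x =>
    hFE _ (hDF j a ▸ Submodule.subset_span ⟨i, rfl⟩) x
  have hddmem : ∀ j a (c : Fin r → xch k s h j a),
      dd (D j a) (fun i => (c i : L)) ∈ xch k s h j a := by
    intro j a c
    rw [dd, Matrix.det_apply]
    refine Subalgebra.sum_mem _ fun σ _ => ?_
    have h1 : ∏ i, (Matrix.of fun i j_1 => (D j a i) (c j_1 : L)) (σ i) i ∈ xch k s h j a :=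
      Subalgebra.prod_mem _ fun i _ => hDB _ _ _ _ (c i).2
    rcases Int.units_eq_one_or (Equiv.Perm.sign σ) with h2 | h2
    · rw [h2, one_smul]; exact h1
    · rw [h2, Units.neg_smul, one_smul]; exact Subalgebra.neg_mem _ h1
  -- smoothness
  have hsmC : ∀ q, Algebra.Smooth k ↥(Bt q ⊓ cF F) := by
    rintro ⟨t, a⟩
    rw [← hcs (jt t) a]
    have h1 : rho s h (jt t) a (it t a).1 ∈ dgi (xch k s h (jt t) a) (D (jt t) a) := by
      rw [hI]
      refine Ideal.mem_map_of_mem _ ?_
      rw [← hS]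
      exact Ideal.subset_span (it t a).2
    let δ : (Fin r → xch k s h (jt t) a) → xch k s h (jt t) a := fun c =>
      ⟨_, hddmem (jt t) a c⟩
    have hδ : dgi (xch k s h (jt t) a) (D (jt t) a) = Ideal.span (Set.range δ) := by
      rw [dgi]
      congr 1
      ext b
      constructor
      · rintro ⟨c, hc⟩
        exact ⟨c, Subtype.ext hc.symm⟩
      · rintro ⟨c, rfl⟩
        exact ⟨c, rfl⟩
    have hu : ∀ c : Fin r → xch k s h (jt t) a,
        dd (D (jt t) a) (fun i => (c i : L)) / algebraMap E L (f t a) ∈ Bt (t, a) := by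
      intro c
      refine hdivB t a (δ c) ?_
      rw [← hI, hδ]
      exact Ideal.subset_span ⟨c, rfl⟩
    rw [hδ] at h1
    obtain ⟨α, hα⟩ := (Finsupp.mem_span_range_iff_exists_finsupp).1 h1
    refine smooth_chart hp hpk (by rw [hDF]; exact hF) (Bt (t, a)) (hBsm (t, a))
      ((IsScalarTower.toAlgHom k E L) '' (M.A t) ∪ (xch k s h (jt t) a : Set L)) ?_
      (algebraMap E L (f t a)) α.support (fun (c : Fin r → xch k s h (jt t) a) i => (c i : L))
      (fun c => (α c : L)) (fun c i => le_mulA' _ (c i).2)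
      (fun c => le_mulA' _ (α c).2) hu ?_ ?_
    · change mulA _ _ = _
      rw [mulA, Algebra.adjoin_union]
      congr 1
      · have := Algebra.adjoin_eq ((M.A t).map (IsScalarTower.toAlgHom k E L))
        exact this.symm
      · exact (Algebra.adjoin_eq _).symm
    · rintro c i x (⟨y, hy, rfl⟩ | hx)
      · have h2 : dd (D (jt t) a) (Function.update (fun i => (c i : L)) i
            ((IsScalarTower.toAlgHom k E L) y)) = 0 := by
          refine Matrix.det_eq_zero_of_column_eq_zero i fun j => ?_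
          rw [Matrix.of_apply, Function.update_self]
          exact hDE _ _ j y
        rw [h2, zero_div]
        exact Subalgebra.zero_mem _
      · have h2 : Function.update (fun i => (c i : L)) i x =
            fun j => (Function.update c i ⟨x, hx⟩ j : L) := by
          funext j
          rw [Function.update_apply, Function.update_apply]
          split_ifs <;> rfl
        rw [h2]
        exact hu _
    · have h2 : ∑ c ∈ α.support, (α c : L) *
          (dd (D (jt t) a) (fun i => (c i : L)) / algebraMap E L (f t a)) =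
          ((α.sum fun c b => b • δ c : xch k s h (jt t) a) : L) / algebraMap E L (f t a) := by
        rw [Finsupp.sum, AddSubmonoidClass.coe_finsetSum, Finset.sum_div]
        refine Finset.sum_congr rfl fun c _ => ?_
        rw [smul_eq_mul, Subalgebra.coe_mul, mul_div_assoc]
      rw [h2, hα, rho_coe]
      exact div_self ((map_ne_zero _).2 (hf0 t a))
  -- the model
  have hpc : ∀ x : L, x ^ p ∈ cF F := fun x => by
    rw [← hcs 0 0]
    exact pow_p_mem_csts hp hpk _ x
  have hKc : ∀ x : L, x ∈ K ↔ x ∈ cF F := fun x => hK x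
  have hpK : ∀ x : L, x ^ p ∈ K := fun x => (hKc _).2 (hpc x)
  have hEK : ∀ x : E, algebraMap E L x ∈ K := fun x => (hKc _).2 (hEL x)
  have hrat : ∀ q q' : T × Fin (n + 1), ∀ N : ℕ,
      algebraMap E L (M.H q'.1 / M.H q.1) * (h q'.2 / h q.2) ^ N ∈ Bt q := by
    intro q q' N
    rw [hBt']
    have h1 : h q'.2 / h q.2 ∈ fch k h q.2 := Algebra.subset_adjoin ⟨q'.2, rfl⟩
    exact Subalgebra.mul_mem _ (le_mulA _ (M.rt _ _)) (le_mulA' _ (Subalgebra.pow_mem _ h1 _))
  let HH : T × Fin (n + 1) → K := fun q =>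
    ⟨algebraMap E L (M.H q.1) * h q.2 ^ p, K.mul_mem (hEK _) (hpK _)⟩
  have hHdiv : ∀ q q', ((HH q' / HH q : K) : L) =
      algebraMap E L (M.H q'.1 / M.H q.1) * (h q'.2 / h q.2) ^ p := by
    intro q q'
    have h1 : ((HH q' / HH q : K) : L) = (HH q' : L) / (HH q : L) := rfl
    rw [h1]
    change (algebraMap E L (M.H q'.1) * h q'.2 ^ p) / (algebraMap E L (M.H q.1) * h q.2 ^ p) = _
    rw [map_div₀, div_pow, mul_div_mul_comm]
  refine ⟨T × Fin (n + 1), inferInstance,
    { A := fun q => (Bt q ⊓ cF F).comap K.val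
      H := HH
      x := fun _ i => i.elim
      sm := fun q => smooth_comap K _ (fun x hx => (hKc x).2 hx.2) (hsmC q)
      base := fun _ => bot_le
      H0 := ?_
      HR := fun _ => Algebra.mem_top
      rt := ?_
      gl := ?_
      dn := fun _ _ _ => ⟨0, Algebra.mem_top⟩
      cv := ?_
      xA := fun _ i => i.elim
      x0 := fun _ i => i.elim
      gi := fun _ _ i => i.elim
      snc := fun _ _ _ _ _ i => i.elim }, ?_⟩
  · intro q h0
    have h1 := congrArg (Subtype.val : K → L) h0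
    exact mul_ne_zero ((map_ne_zero _).2 (M.H0 q.1)) (pow_ne_zero _ (hh q.2)) h1
  · intro q q'
    refine ⟨?_, (hKc _).1 (HH q' / HH q).2⟩
    change ((HH q' / HH q : K) : L) ∈ Bt q
    rw [hHdiv]
    exact hrat q q' p
  · intro q q' x hx
    have hx1 : (x : L) ∈ Bt q' := hx.1
    rw [hBt'] at hx1
    have h1 : ∃ N : ℕ, ∀ N', N ≤ N' →
        (algebraMap E L (M.H q'.1 / M.H q.1)) ^ N' * (h q'.2 / h q.2) ^ (p * N') * (x : L) ∈
          Bt q := by
      rw [hBt']
      refine mulA_induction (P := fun x => ∃ N : ℕ, ∀ N', N ≤ N' →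
        (algebraMap E L (M.H q'.1 / M.H q.1)) ^ N' * (h q'.2 / h q.2) ^ (p * N') * x ∈
          mulA (M.A q.1) (fch k h q.2)) ?_ ?_ hx1
      · intro α hα β hβ
        obtain ⟨n1, hn1⟩ := M.gl q.1 q'.1 α hα
        obtain ⟨n2, hn2⟩ := fch_glue h hh q.2 q'.2 hβ
        refine ⟨n1 + n2, fun N' hN' => ?_⟩
        have h2 : (M.H q'.1 / M.H q.1) ^ N' * α ∈ M.A q.1 := M.gl_mono (by omega) hn1
        have h3 : (h q'.2 / h q.2) ^ (p * N') * β ∈ fch k h q.2 := by
          refine hn2 _ ?_
          have : 1 * N' ≤ p * N' := Nat.mul_le_mul_right _ hp.one_le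
          omega
        have h4 : (algebraMap E L (M.H q'.1 / M.H q.1)) ^ N' * (h q'.2 / h q.2) ^ (p * N') *
            (algebraMap E L α * β) = algebraMap E L ((M.H q'.1 / M.H q.1) ^ N' * α) *
              ((h q'.2 / h q.2) ^ (p * N') * β) := by
          rw [map_mul, map_pow]
          ring
        rw [h4]
        exact Subalgebra.mul_mem _ (le_mulA _ h2) (le_mulA' _ h3)
      · rintro x y ⟨n1, hn1⟩ ⟨n2, hn2⟩
        refine ⟨n1 + n2, fun N' hN' => ?_⟩
        rw [mul_add]
        exact Subalgebra.add_mem _ (hn1 N' (by omega)) (hn2 N' (by omega))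
    obtain ⟨N, hN⟩ := h1
    refine ⟨N, ?_, (hKc _).1 ((HH q' / HH q) ^ N * x).2⟩
    change (((HH q' / HH q) ^ N * x : K) : L) ∈ Bt q
    have h2 : (((HH q' / HH q) ^ N * x : K) : L) = ((HH q' / HH q : K) : L) ^ N * x := rfl
    rw [h2, hHdiv, mul_pow, ← pow_mul]
    exact hN N le_rfl
  · intro V hV
    let W := vroot hp hpL K hpK V
    have hW : ∀ x : L, x ∈ W ↔ (⟨x ^ p, hpK x⟩ : K) ∈ V := fun x => Iff.rfl
    have hkW : ∀ c : k, algebraMap k L c ∈ W := by
      intro c
      rw [hW]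
      have h1 : (⟨algebraMap k L c ^ p, hpK _⟩ : K) = algebraMap k K (c ^ p) := by
        apply Subtype.ext
        change algebraMap k L c ^ p = algebraMap k L (c ^ p)
        rw [map_pow]
      rw [h1]
      exact hV _ ((⊥ : Subalgebra k K).algebraMap_mem _)
    obtain ⟨t, ht⟩ := M.cv (W.comap (algebraMap E L)) (by
      intro x hx
      obtain ⟨c, rfl⟩ := Algebra.mem_bot.1 hx
      change algebraMap E L (algebraMap k E c) ∈ W
      rw [← IsScalarTower.algebraMap_apply]
      exact hkW c)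
    obtain ⟨a, ha⟩ := Finite.exists_max (fun a => W.valuation (h a))
    refine ⟨(t, a), fun x hx => ?_⟩
    have hx1 : (x : L) ∈ Bt (t, a) := hx.1
    rw [hBt'] at hx1
    have h1 : (x : L) ∈ W := by
      refine mulA_induction (P := fun x => x ∈ W) ?_ (fun x y => W.add_mem x y) hx1
      intro α hα β hβ
      refine W.mul_mem _ _ (ht α hα) ?_
      have h0 : W.valuation (h a) ≠ 0 := (map_ne_zero _).2 (hh a)
      induction hβ using Algebra.adjoin_induction with
      | mem x hx =>
        obtain ⟨b, rfl⟩ := hx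
        change h b / h a ∈ W
        rw [← W.valuation_le_one_iff, map_div₀]
        exact (div_le_one₀ (zero_lt_iff.2 h0)).2 (ha b)
      | algebraMap c => exact hkW c
      | add x y _ _ hx hy => exact W.add_mem _ _ hx hy
      | mul x y _ _ hx hy => exact W.mul_mem _ _ hx hy
    rw [hW] at h1
    have h2 : (⟨(x : L) ^ p, hpK _⟩ : K) = x ^ p := Subtype.ext rfl
    rw [h2, ← V.valuation_le_one_iff, map_pow] at h1
    rw [← V.valuation_le_one_iff]
    exact (pow_le_one_iff hp.ne_zero).1 h1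
  · rintro ⟨t, a⟩ x
    obtain ⟨y, hy, z, hz, hz0, hxyz⟩ := hLfr (jt t) a (x : L)
    have hyB : y ∈ Bt (t, a) := le_mulA' _ hy
    have hzB : z ∈ Bt (t, a) := le_mulA' _ hz
    have hzp : z ^ p ∈ Bt (t, a) ⊓ cF F :=
      ⟨Subalgebra.pow_mem _ hzB p, hpc z⟩
    have hxz : (x : L) * z ^ p ∈ Bt (t, a) ⊓ cF F := by
      refine ⟨?_, Subalgebra.mul_mem _ ((hKc _).1 x.2) hzp.2⟩
      have h1 : (x : L) * z ^ p = y * z ^ (p - 1) := by
        have h2 : z ^ p = z ^ (p - 1) * z := by
          rw [← pow_succ, Nat.sub_add_cancel hp.one_le]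
        rw [hxyz, h2]
        field_simp
      rw [h1]
      exact Subalgebra.mul_mem _ hyB (Subalgebra.pow_mem _ hzB _)
    refine ⟨⟨(x : L) * z ^ p, (hKc _).2 hxz.2⟩, hxz, ⟨z ^ p, hpK z⟩, hzp, ?_, ?_⟩
    · intro h0
      exact pow_ne_zero p hz0 (congrArg (Subtype.val : K → L) h0)
    · apply Subtype.ext
      change (x : L) = ((x : L) * z ^ p) / z ^ p
      rw [mul_div_cancel_right₀ _ (pow_ne_zero p hz0)]

end

end Pool.Agent.Q40.RS
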