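import Pool.Agent.W558.SNC
import Mathlib

/-! Smoothness of the charts `A * B` of a base change of a smooth morphism `Spec B → Spec R`
along a modification with the chart `Spec A`, and the local criterion. -/

set_option autoImplicit false
set_option linter.unusedSectionVars false

universe u

open TensorProduct

namespace Pool.Agent.Q40.RS

open Pool.Agent.W558

section inj

variable {R A B L : Type u} [CommRing R] [CommRing A] [IsDomain A] [CommRing B] [Field L]
  [Algebra R A] [Algebra R B] [Algebra R L] (f : A →ₐ[R] L) (g : B →ₐ[R] L)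

/-- The base change of a flat algebra `B` over `R` to a subalgebra `A` of the field of fractions of
`R` is contained in the field of fractions of `B`. -/
theorem productMap_injective (hR : Function.Injective (algebraMap R A))
    (hg : Function.Injective g) [Module.Flat R B]
    (hfr : ∀ a : A, ∃ r r' : R, r ≠ 0 ∧ algebraMap R A r * a = algebraMap R A r') :
    Function.Injective (Algebra.TensorProduct.productMap f g) := by
  have key : ∀ z : A ⊗[R] B, ∃ r : R, r ≠ 0 ∧ ∃ b : B,
      (algebraMap R A r) • z = (1 : A) ⊗ₜ[R] b := by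
    intro z
    induction z using TensorProduct.induction_on with
    | zero =>
      refine ⟨1, ?_, 0, by simp⟩
      intro h
      have h1 : algebraMap R A 1 = algebraMap R A 0 := by rw [h]
      rw [map_one, map_zero] at h1
      exact one_ne_zero h1
    | tmul a b =>
      obtain ⟨r, r', hr, h⟩ := hfr a
      refine ⟨r, hr, r' • b, ?_⟩
      rw [TensorProduct.smul_tmul', smul_eq_mul, h, Algebra.algebraMap_eq_smul_one,
        TensorProduct.smul_tmul]
    | add x y hx hy =>
      obtain ⟨r, hr, b, h⟩ := hx
      obtain ⟨r', hr', b', h'⟩ := hy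
      have h0 : r * r' ≠ 0 := by
        intro h0
        have h1 := congrArg (algebraMap R A) h0
        rw [map_mul, map_zero] at h1
        rcases mul_eq_zero.1 h1 with h2 | h2
        · exact hr (hR (by rw [h2, map_zero]))
        · exact hr' (hR (by rw [h2, map_zero]))
      refine ⟨r * r', h0, r' • b + r • b', ?_⟩
      rw [smul_add, map_mul, mul_comm (algebraMap R A r), mul_smul, h, mul_comm, mul_smul, h',
        TensorProduct.tmul_add, TensorProduct.tmul_smul, TensorProduct.tmul_smul]
      simp only [algebraMap_smul]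
  rw [injective_iff_map_eq_zero]
  intro z hz
  obtain ⟨r, hr, b, h⟩ := key z
  have h1 : Algebra.TensorProduct.productMap f g ((algebraMap R A r) • z) = 0 := by
    have : (algebraMap R A r) • z = (algebraMap R A r ⊗ₜ[R] (1 : B)) * z := by
      rw [Algebra.smul_def]
      rfl
    rw [this, map_mul, hz, mul_zero]
  rw [h, Algebra.TensorProduct.productMap_apply_tmul, map_one, one_mul] at h1
  have h2 : b = 0 := hg (by rw [h1, map_zero])
  rw [h2, TensorProduct.tmul_zero] at h
  have h3 : (algebraMap R A r) ≠ 0 := fun h0 => hr (hR (by rw [h0, map_zero]))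
  exact (smul_eq_zero.1 h).resolve_left h3

end inj

section chart

variable {k E L : Type u} [Field k] [Field E] [Field L] [Algebra k E] [Algebra k L] [Algebra E L]
  [IsScalarTower k E L]

/-- The subalgebra of `L` generated by the subalgebras `A` of `E` and `B` of `L`. -/
noncomputable def mulA (A : Subalgebra k E) (B : Subalgebra k L) : Subalgebra k L :=
  A.map (IsScalarTower.toAlgHom k E L) ⊔ B

lemma le_mulA {A : Subalgebra k E} (B : Subalgebra k L) {a : E} (ha : a ∈ A) :
    algebraMap E L a ∈ mulA A B :=
  (le_sup_left : A.map (IsScalarTower.toAlgHom k E L) ≤ _) ⟨a, ha, rfl⟩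

lemma le_mulA' (A : Subalgebra k E) {B : Subalgebra k L} {b : L} (hb : b ∈ B) : b ∈ mulA A B :=
  (le_sup_right : B ≤ _) hb

lemma mulA_induction {A : Subalgebra k E} {B : Subalgebra k L} {P : L → Prop}
    (hab : ∀ a ∈ A, ∀ b ∈ B, P (algebraMap E L a * b)) (hadd : ∀ x y, P x → P y → P (x + y)) {x : L}
    (hx : x ∈ mulA A B) : P x := by
  have h1 : mulA A B ≤ (Algebra.TensorProduct.productMap
      ((IsScalarTower.toAlgHom k E L).comp A.val) B.val).range := by
    refine sup_le ?_ ?_
    · rintro _ ⟨a, ha, rfl⟩
      exact ⟨(⟨a, ha⟩ : A) ⊗ₜ[k] (1 : B), by simp⟩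
    · intro b hb
      exact ⟨(1 : A) ⊗ₜ[k] (⟨b, hb⟩ : B), by simp⟩
  obtain ⟨z, rfl⟩ := h1 hx
  clear hx
  induction z using TensorProduct.induction_on with
  | zero =>
    have := hab 0 A.zero_mem 0 B.zero_mem
    simpa using this
  | tmul a b =>
    have := hab a a.2 b b.2
    simpa using this
  | add x y hx hy =>
    have h2 := hadd _ _ hx hy
    rw [← map_add] at h2
    exact h2

lemma mulA_le {A : Subalgebra k E} {B C : Subalgebra k L} (h1 : ∀ a ∈ A, algebraMap E L a ∈ C)
    (h2 : B ≤ C) : mulA A B ≤ C := by
  refine sup_le ?_ h2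
  rintro _ ⟨a, ha, rfl⟩
  exact h1 a ha

/-- The chart `A * B` is smooth over `k`, if `A` is smooth over `k`, `B` is smooth over `R`,
and `R` is contained in `A` and has the field of fractions `E`. -/
theorem smooth_mulA (A R : Subalgebra k E) (hRA : R ≤ A)
    (hfr : ∀ x : E, ∃ a ∈ R, ∃ b ∈ R, b ≠ 0 ∧ x = a * b⁻¹) (hA : Algebra.Smooth k A)
    (B : Subalgebra k L) (ρ : R →+* B) (hρ : ∀ r : R, (ρ r : L) = algebraMap E L r)
    (hB : ρ.Smooth) : Algebra.Smooth k (mulA A B) := by
  let _ : Algebra R B := ρ.toAlgebra
  let _ : Algebra R A := (Subalgebra.inclusion hRA).toRingHom.toAlgebra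
  have hB' : Algebra.Smooth R B := hB
  have t1 : IsScalarTower k R A := IsScalarTower.of_algebraMap_eq (fun x => rfl)
  have t2 : IsScalarTower k R B := IsScalarTower.of_algebraMap_eq (fun x => by
    apply Subtype.ext
    change algebraMap k L x = (ρ (algebraMap k R x) : L)
    rw [hρ]
    exact IsScalarTower.algebraMap_apply k E L x)
  let f : A →ₐ[R] L :=
    { toRingHom := (algebraMap E L).comp A.val.toRingHom
      commutes' := fun r => rfl }
  let g : B →ₐ[R] L :=
    { toRingHom := B.val.toRingHom
      commutes' := fun r => hρ r }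
  have hinj : Function.Injective (Algebra.TensorProduct.productMap f g) := by
    refine productMap_injective f g ?_ Subtype.val_injective ?_
    · exact Subalgebra.inclusion_injective hRA
    · intro a
      obtain ⟨x, hx, y, hy, hy0, h⟩ := hfr a
      refine ⟨⟨y, hy⟩, ⟨x, hx⟩, fun h0 => hy0 (congrArg Subtype.val h0), ?_⟩
      apply Subtype.ext
      change y * (a : E) = x
      rw [h]
      field_simp
  have hS : Algebra.Smooth k (A ⊗[R] B) := by
    have h1 : Algebra.Smooth A (A ⊗[R] B) := inferInstance
    exact Algebra.Smooth.comp k A (A ⊗[R] B)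
  let Φ : A ⊗[R] B →ₐ[k] L :=
    { toRingHom := (Algebra.TensorProduct.productMap f g).toRingHom
      commutes' := fun r => by
        have : algebraMap k (A ⊗[R] B) r = (algebraMap k A r) ⊗ₜ[R] (1 : B) := rfl
        rw [this]
        change Algebra.TensorProduct.productMap f g _ = _
        rw [Algebra.TensorProduct.productMap_apply_tmul, map_one, mul_one]
        change algebraMap E L (algebraMap k E r) = _
        exact (IsScalarTower.algebraMap_apply k E L r).symm }
  have hΦ : ∀ a b, Φ (a ⊗ₜ[R] b) = algebraMap E L a * b := fun a b =>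
    Algebra.TensorProduct.productMap_apply_tmul f g a b
  have hr : Φ.range = mulA A B := by
    apply le_antisymm
    · rintro _ ⟨z, rfl⟩
      induction z using TensorProduct.induction_on with
      | zero => exact (mulA A B).zero_mem
      | tmul a b =>
        change Φ (a ⊗ₜ[R] b) ∈ _
        rw [hΦ]
        exact (mulA A B).mul_mem (le_mulA B a.2) (le_mulA' A b.2)
      | add x y hx hy =>
        have := (mulA A B).add_mem hx hy
        change Φ (x + y) ∈ _
        rw [map_add]
        exact this
    · refine mulA_le ?_ ?_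
      · intro a ha
        refine ⟨(⟨a, ha⟩ : A) ⊗ₜ[R] (1 : B), ?_⟩
        change Φ _ = _
        rw [hΦ]
        simp
      · intro b hb
        refine ⟨(1 : A) ⊗ₜ[R] (⟨b, hb⟩ : B), ?_⟩
        change Φ _ = _
        rw [hΦ]
        simp
  have e : (A ⊗[R] B) ≃ₐ[k] Φ.range := AlgEquiv.ofInjective Φ hinj
  rw [← hr]
  exact Algebra.Smooth.of_equiv e

end chart

section cover

variable {k L : Type u} [Field k] [Field L] [Algebra k L]

/-- The local criterion for smoothness. -/
theorem smooth_of_cover (C : Subalgebra k L) {ι : Type*} (s : ι → L) (hs : ∀ i, s i ∈ C)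
    (h0 : ∀ i, s i ≠ 0) (hsp : Ideal.span (Set.range fun i => (⟨s i, hs i⟩ : C)) = ⊤)
    (h : ∀ i, Algebra.Smooth k (adj C (s i)⁻¹)) : Algebra.Smooth k C := by
  rw [← RingHom.smooth_algebraMap]
  refine RingHom.Smooth.ofLocalizationSpanTarget (algebraMap k C)
    (Set.range fun i => (⟨s i, hs i⟩ : C)) hsp ?_
  rintro ⟨_, ⟨i, rfl⟩⟩
  have hsm := h i
  let _ : Algebra C (adj C (s i)⁻¹) := (Subalgebra.inclusion (le_adj C (s i)⁻¹)).toRingHom.toAlgebra
  have hloc := isLocalization_adj (hs i) (h0 i)
  let e := IsLocalization.algEquiv (Submonoid.powers (⟨s i, hs i⟩ : C))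
    (adj C (s i)⁻¹) (Localization.Away (⟨s i, hs i⟩ : C))
  have h1 : ((algebraMap C (Localization.Away (⟨s i, hs i⟩ : C))).comp (algebraMap k C)) =
      (e : adj C (s i)⁻¹ →+* _).comp (algebraMap k (adj C (s i)⁻¹)) := by
    ext x
    have h2 := e.commutes (algebraMap k C x)
    exact h2.symm
  rw [h1]
  exact (RingHom.smooth_algebraMap.2 hsm).comp (RingHom.Smooth.of_bijective e.bijective)

end cover

end Pool.Agent.Q40.RS
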