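import Pool.Agent.Q40.RS.Main
import Pool.Agent.W558.WD.Plane

/-! Vector fields on `S × 𝔸^s` with coefficients in the functions on `S`. -/

set_option autoImplicit false
set_option linter.unusedSectionVars false

universe u

namespace Pool.Agent.Q40.RS

open Pool.Agent.W558 Pool.Agent.H920R2 Pool.Agent.W418.LCI AlgebraicGeometry CategoryTheory

section sat

variable {k L : Type u} [Field k] [Field L] [Algebra k L]

/-- The space of derivations which vanish on a subset is a restricted Lie algebra. -/
theorem isRLie_of_sat {p : ℕ} (hp : p.Prime) (hpk : (p : k) = 0)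
    (F : Submodule L (Derivation k L L)) (M : Set L)
    (h : ∀ X : Derivation k L L, X ∈ F ↔ ∀ m ∈ M, X m = 0) : IsRLie p F where
  lie := by
    intro X hX Y hY
    rw [h] at hX hY ⊢
    intro m hm
    rw [Derivation.commutator_apply, hX m hm, hY m hm, map_zero, map_zero, sub_zero]
  pow := by
    intro X hX
    have hadd : ∀ x y, X^[p] (x + y) = X^[p] x + X^[p] y := iter_add X p
    let l : L →ₗ[k] L :=
      { toFun := fun x => X^[p] x
        map_add' := hadd
        map_smul' := fun c x => by
          rw [Algebra.smul_def, iter_const_mul X p _ x (X.map_algebraMap c), RingHom.id_apply,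
            Algebra.smul_def] }
    let Y : Derivation k L L := Derivation.mk' l (by
      intro a b
      exact iterate_p_mul hp hpk X a b)
    refine ⟨Y, ?_, fun x => rfl⟩
    rw [h] at hX ⊢
    intro m hm
    change X^[p] m = 0
    obtain ⟨q, hq⟩ : ∃ q, p = q + 1 := ⟨p - 1, (Nat.sub_add_cancel hp.one_le).symm⟩
    rw [hq, Function.iterate_succ_apply, hX m hm]
    exact iter_zero _ _

end sat

section aff

variable {k R E L : Type u} [Field k] [CommRing R] [IsDomain R] [Algebra k R] [Field E]
  [Algebra k E] [Algebra R E] [IsScalarTower k R E] [IsFractionRing R E] {s r : ℕ}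
  [Field L] [Algebra k L] [Algebra (MvPolynomial (Fin s) R) L]
  [IsScalarTower k (MvPolynomial (Fin s) R) L] [IsFractionRing (MvPolynomial (Fin s) R) L]
  [Algebra R L]
  [IsScalarTower R (MvPolynomial (Fin s) R) L] [Algebra E L] [IsScalarTower R E L]
  [IsScalarTower k E L]

/-- A derivation of the polynomial ring with the coefficients `f`. -/
noncomputable def fld (k : Type u) [Field k] {R : Type u} [CommRing R] [Algebra k R] {s : ℕ}
    (f : Fin s → R) : Derivation k (MvPolynomial (Fin s) R) (MvPolynomial (Fin s) R) :=
  (MvPolynomial.mkDerivation R fun j => MvPolynomial.C (f j)).restrictScalars k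

lemma fld_C (f : Fin s → R) (a : R) : fld k f (MvPolynomial.C a) = 0 := by
  change MvPolynomial.mkDerivation R _ (MvPolynomial.C a) = 0
  exact MvPolynomial.derivation_C _ a

lemma fld_X (f : Fin s → R) (j : Fin s) : fld k f (MvPolynomial.X j) = MvPolynomial.C (f j) := by
  change MvPolynomial.mkDerivation R _ (MvPolynomial.X j) = _
  exact MvPolynomial.mkDerivation_X _ _ _

variable (D : Fin r → Derivation k L L) (f : Fin r → Fin s → R)
  (hD : ∀ i b, D i (algebraMap (MvPolynomial (Fin s) R) L b) =
    algebraMap (MvPolynomial (Fin s) R) L (fld k (f i) b))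

include hD in
lemma D_R (i : Fin r) (a : R) : D i (algebraMap R L a) = 0 := by
  rw [IsScalarTower.algebraMap_apply R (MvPolynomial (Fin s) R) L]
  change D i (algebraMap (MvPolynomial (Fin s) R) L (MvPolynomial.C a)) = 0
  rw [hD, fld_C, map_zero]

include hD in
lemma D_E (i : Fin r) (x : E) : D i (algebraMap E L x) = 0 := by
  obtain ⟨a, b, hb, rfl⟩ := IsFractionRing.div_surjective (A := R) x
  rw [map_div₀, ← IsScalarTower.algebraMap_apply R E L, ← IsScalarTower.algebraMap_apply R E L,
    Derivation.leibniz_div, D_R D f hD, D_R D f hD]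
  simp

/-- The determinant of the coefficients of regular functions. -/
noncomputable def dl (k : Type u) [Field k] {R : Type u} [CommRing R] [Algebra k R] {s r : ℕ}
    (f : Fin r → Fin s → R) (c : Fin r → MvPolynomial (Fin s) R) : MvPolynomial (Fin s) R :=
  (Matrix.of fun i j => fld k (f i) (c j)).det

/-- The minors. -/
noncomputable def mi {R : Type u} [CommRing R] {s r : ℕ} (f : Fin r → Fin s → R)
    (c : Fin r → Fin s) : R := (Matrix.of fun i j => f i (c j)).det

lemma dl_X (f : Fin r → Fin s → R) (c : Fin r → Fin s) :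
    dl k f (fun j => MvPolynomial.X (c j)) = MvPolynomial.C (mi f c) := by
  rw [dl, mi, RingHom.map_det]
  congr 1
  ext i j
  rw [Matrix.of_apply, fld_X, RingHom.mapMatrix_apply, Matrix.map_apply, Matrix.of_apply]

lemma fld_eq (f : Fin s → R) (b : MvPolynomial (Fin s) R) :
    fld k f b = ∑ l, MvPolynomial.pderiv l b * MvPolynomial.C (f l) := by
  induction b using MvPolynomial.induction_on with
  | C a =>
    rw [fld_C]
    refine (Finset.sum_eq_zero fun l _ => ?_).symm
    rw [MvPolynomial.pderiv_C, zero_mul]
  | add x y hx hy =>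
    rw [map_add, hx, hy, ← Finset.sum_add_distrib]
    refine Finset.sum_congr rfl fun l _ => ?_
    rw [map_add, add_mul]
  | mul_X x j hx =>
    rw [Derivation.leibniz, hx, fld_X, smul_eq_mul, smul_eq_mul, Finset.mul_sum]
    have h1 : ∀ l, MvPolynomial.pderiv l (x * MvPolynomial.X j) * MvPolynomial.C (f l) =
        x * (Pi.single j 1 : Fin s → MvPolynomial (Fin s) R) l * MvPolynomial.C (f l) +
          MvPolynomial.X j * (MvPolynomial.pderiv l x * MvPolynomial.C (f l)) := by
      intro l
      rw [Derivation.leibniz, MvPolynomial.pderiv_X, smul_eq_mul, smul_eq_mul, Pi.single_apply,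
        Pi.single_apply]
      by_cases h : l = j
      · rw [if_pos h, if_pos h.symm]; ring
      · rw [if_neg h, if_neg (Ne.symm h)]; ring
    have h2 : ∑ l, x * (Pi.single j 1 : Fin s → MvPolynomial (Fin s) R) l *
        MvPolynomial.C (f l) = x * MvPolynomial.C (f j) := by
      rw [Finset.sum_eq_single j]
      · rw [Pi.single_eq_same, mul_one]
      · intro l _ hl
        rw [Pi.single_eq_of_ne hl, mul_zero, zero_mul]
      · intro h
        exact absurd (Finset.mem_univ j) h
    rw [Finset.sum_congr rfl fun l _ => h1 l, Finset.sum_add_distrib, h2]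

lemma dl_mem (f : Fin r → Fin s → R) (c : Fin r → MvPolynomial (Fin s) R) :
    dl k f c ∈ (Ideal.span (Set.range (mi f))).map
      (algebraMap R (MvPolynomial (Fin s) R)) := by
  rw [dl, ← Matrix.det_transpose]
  have h1 : (Matrix.of fun i j => fld k (f i) (c j)).transpose =
      fun j => ∑ l, MvPolynomial.pderiv l (c j) •
        (fun i => (MvPolynomial.C (f i l) : MvPolynomial (Fin s) R)) := by
    funext j i
    rw [Matrix.transpose_apply, Matrix.of_apply, fld_eq, Finset.sum_apply]
    rfl
  rw [h1]
  change Matrix.detRowAlternating _ ∈ _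
  have h2 := MultilinearMap.map_sum
    (Matrix.detRowAlternating (n := Fin r) (R := MvPolynomial (Fin s) R)).toMultilinearMap
    (fun (j : Fin r) (l : Fin s) => MvPolynomial.pderiv l (c j) •
        (fun i => (MvPolynomial.C (f i l) : MvPolynomial (Fin s) R)))
  have h3 : (Matrix.detRowAlternating (n := Fin r) (R := MvPolynomial (Fin s) R))
      (fun j => ∑ l, MvPolynomial.pderiv l (c j) •
        (fun i => (MvPolynomial.C (f i l) : MvPolynomial (Fin s) R))) = _ := h2
  rw [h3]
  refine Ideal.sum_mem _ fun φ _ => ?_
  have h4 := MultilinearMap.map_smul_univ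
    (Matrix.detRowAlternating (n := Fin r) (R := MvPolynomial (Fin s) R)).toMultilinearMap
    (fun j => MvPolynomial.pderiv (φ j) (c j))
    (fun j => (fun i => (MvPolynomial.C (f i (φ j)) : MvPolynomial (Fin s) R)))
  rw [h4, smul_eq_mul]
  refine Ideal.mul_mem_left _ _ ?_
  have h5 : (Matrix.detRowAlternating (n := Fin r) (R := MvPolynomial (Fin s) R)).toMultilinearMap
      (fun j => (fun i => (MvPolynomial.C (f i (φ j)) : MvPolynomial (Fin s) R))) =
      algebraMap R (MvPolynomial (Fin s) R) (mi f φ) := by
    change Matrix.det _ = MvPolynomial.C (mi f φ)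
    rw [mi, RingHom.map_det, ← Matrix.det_transpose]
    congr 1
  rw [h5]
  exact Ideal.mem_map_of_mem _ (Ideal.subset_span ⟨φ, rfl⟩)

lemma span_dl (f : Fin r → Fin s → R) : Ideal.span (Set.range (dl k f)) =
    (Ideal.span (Set.range (mi f))).map (algebraMap R (MvPolynomial (Fin s) R)) := by
  apply le_antisymm
  · refine Ideal.span_le.2 ?_
    rintro _ ⟨c, rfl⟩
    exact dl_mem f c
  · rw [Ideal.map_span]
    refine Ideal.span_le.2 ?_
    rintro _ ⟨_, ⟨c, rfl⟩, rfl⟩
    refine Ideal.subset_span ⟨_, dl_X f c⟩

include hD in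
lemma dd_eq (c : Fin r → MvPolynomial (Fin s) R) :
    algebraMap (MvPolynomial (Fin s) R) L (dl k f c) =
      dd D (fun i => algebraMap (MvPolynomial (Fin s) R) L (c i)) := by
  rw [dl, dd, RingHom.map_det]
  congr 1
  ext i j
  rw [RingHom.mapMatrix_apply, Matrix.map_apply, Matrix.of_apply, Matrix.of_apply, hD]

include hD in
/-- The span of the vector fields is the space of all derivations which vanish on the common
constants. -/
lemma sat_of_minor (c0 : Fin r → Fin s) (h0 : mi f c0 ≠ 0) (X : Derivation k L L) :
    X ∈ Submodule.span L (Set.range D) ↔ ∀ m ∈ (csts D : Set L), X m = 0 := by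
  set P := MvPolynomial (Fin s) R with hP
  have hPL : Function.Injective (algebraMap P L) := IsFractionRing.injective P L
  have hRL : Function.Injective (algebraMap R L) := by
    rw [IsScalarTower.algebraMap_eq R P L]
    exact hPL.comp (MvPolynomial.C_injective _ _)
  have hkill : ∀ Z ∈ Submodule.span L (Set.range D), ∀ m ∈ (csts D : Set L), Z m = 0 := by
    intro Z hZ m hm
    obtain ⟨a, rfl⟩ := (Submodule.mem_span_range_iff_exists_fun L).1 hZ
    rw [der_sum_apply]
    refine Finset.sum_eq_zero fun i _ => ?_
    rw [Derivation.coe_smul, Pi.smul_apply, mem_csts.1 hm i, smul_zero]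
  refine ⟨hkill X, fun hX => ?_⟩
  let c : Fin r → L := fun j => algebraMap P L (MvPolynomial.X (c0 j))
  have hdd : ∀ c1 : Fin r → Fin s, dd D (fun j => algebraMap P L (MvPolynomial.X (c1 j))) =
      algebraMap R L (mi f c1) := by
    intro c1
    rw [← dd_eq D f hD, dl_X, IsScalarTower.algebraMap_apply R P L]
    rfl
  have hc : dd D c ≠ 0 := by
    rw [hdd c0]
    intro h
    exact h0 (hRL (by rw [h, map_zero]))
  have hCm : ∀ a : R, algebraMap R L a ∈ (csts D : Set L) := fun a =>
    mem_csts.2 fun i => D_R D f hD i a
  let X' : Derivation k L L := X - ∑ i, X (c i) • dual D c i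
  have hX'app : ∀ z, X' z = X z - ∑ i, X (c i) * dual D c i z := by
    intro z
    change (X - ∑ i, X (c i) • dual D c i) z = _
    rw [Derivation.coe_sub, Pi.sub_apply, der_sum_apply]
    rfl
  have hX'k : ∀ m ∈ (csts D : Set L), X' m = 0 := by
    intro m hm
    rw [hX'app, hX m hm, zero_sub, neg_eq_zero]
    refine Finset.sum_eq_zero fun i _ => ?_
    rw [hkill _ (dual_mem c i) m hm, mul_zero]
  have hX'c : ∀ j, X' (c j) = 0 := by
    intro j
    rw [hX'app, Finset.sum_eq_single j]
    · rw [dual_c hc, if_pos rfl, mul_one, sub_self]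
    · intro i _ hij
      rw [dual_c hc, if_neg hij, mul_zero]
    · intro h
      exact absurd (Finset.mem_univ j) h
  have hX'X : ∀ l : Fin s, X' (algebraMap P L (MvPolynomial.X l)) = 0 := by
    intro l
    let e : Fin r → L := fun i => dual D c i (algebraMap P L (MvPolynomial.X l))
    have he : ∀ i, e i ∈ (csts D : Set L) := by
      intro i
      have h1 : e i = algebraMap R L (mi f (Function.update c0 i l)) /
          algebraMap R L (mi f c0) := by
        change dual D c i _ = _
        have h2 : Function.update c i (algebraMap P L (MvPolynomial.X l)) =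
            fun j => algebraMap P L (MvPolynomial.X (Function.update c0 i l j)) := by
          funext j
          rw [Function.update_apply, Function.update_apply]
          split_ifs <;> rfl
        rw [dual_eq hc, h2, hdd, hdd c0]
      have h2 : e i = algebraMap R L (mi f (Function.update c0 i l)) *
          (algebraMap R L (mi f c0))⁻¹ := by rw [h1, div_eq_mul_inv]
      refine mem_csts.2 fun j => ?_
      rw [h2, Derivation.leibniz, Derivation.leibniz_inv, D_R D f hD, D_R D f hD]
      simp
    let u : L := algebraMap P L (MvPolynomial.X l) - ∑ i, e i * c i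
    have hu : u ∈ (csts D : Set L) := by
      refine mem_csts.2 fun j => ?_
      change D j (algebraMap P L (MvPolynomial.X l) - ∑ i, e i * c i) = 0
      rw [map_sub, map_sum, D_eq_dual hc j (algebraMap P L (MvPolynomial.X l)), sub_eq_zero]
      refine Finset.sum_congr rfl fun i _ => ?_
      rw [Derivation.leibniz, mem_csts.1 (he i) j, smul_zero, add_zero, smul_eq_mul, mul_comm]
    have h3 := hX'k u hu
    change X' (algebraMap P L (MvPolynomial.X l) - ∑ i, e i * c i) = 0 at h3
    rw [map_sub, map_sum, Finset.sum_eq_zero, sub_zero] at h3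
    · exact h3
    · intro i _
      rw [Derivation.leibniz, hX'c, hX'k _ (he i), smul_zero, smul_zero, add_zero]
  have hX'P : ∀ b : P, X' (algebraMap P L b) = 0 := by
    intro b
    induction b using MvPolynomial.induction_on with
    | C a =>
      have := hX'k _ (hCm a)
      rwa [IsScalarTower.algebraMap_apply R P L] at this
    | add x y hx hy => rw [map_add, map_add, hx, hy, add_zero]
    | mul_X x j hx => rw [map_mul, Derivation.leibniz, hx, hX'X, smul_zero, smul_zero, add_zero]
  have h4 : X' = 0 := by
    ext z
    obtain ⟨a, b, hb, rfl⟩ := IsFractionRing.div_surjective (A := P) z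
    rw [Derivation.leibniz_div, hX'P, hX'P]
    simp
  have h5 : X = ∑ i, X (c i) • dual D c i := sub_eq_zero.1 h4
  rw [h5]
  exact Submodule.sum_mem _ fun i _ => Submodule.smul_mem _ _ (dual_mem c i)

end aff

end Pool.Agent.Q40.RS
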