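import Pool.Agent.Q40.RS.Chart
import Pool.Agent.H920R2.Fol3

/-! Smoothness of the quotient of a smooth chart by a foliation of rank `r`, of which the
degeneracy ideal is generated by one element. -/

set_option autoImplicit false
set_option linter.unusedSectionVars false

universe u

namespace Pool.Agent.Q40.RS

open Pool.Agent.W558 Pool.Agent.H920R2

section fol

variable {k L : Type u} [Field k] [Field L] [Algebra k L]

/-- A restricted Lie algebra of derivations: an `L`-subspace of the space of derivations of `L`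
over `k` which is closed under brackets and `p`-th powers (a foliation of height one). -/
structure IsRLie (p : ℕ) (F : Submodule L (Derivation k L L)) : Prop where
  lie : ∀ X ∈ F, ∀ Y ∈ F, ⁅X, Y⁆ ∈ F
  pow : ∀ X ∈ F, ∃ Y ∈ F, ∀ x, X^[p] x = Y x

lemma der_sum_apply {ι : Type*} (s : Finset ι) (f : ι → Derivation k L L) (x : L) :
    (∑ j ∈ s, f j) x = ∑ j ∈ s, f j x := by
  classical
  induction s using Finset.induction_on with
  | empty => simp
  | insert a s ha ih => rw [Finset.sum_insert ha, Finset.sum_insert ha, Derivation.coe_add,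
      Pi.add_apply, ih]

/-- The common constants. -/
def csts {r : ℕ} (D : Fin r → Derivation k L L) : Subalgebra k L := ⨅ i, kerAlg (D i)

lemma mem_csts {r : ℕ} {D : Fin r → Derivation k L L} {x : L} :
    x ∈ csts D ↔ ∀ i, D i x = 0 := by
  rw [csts, Algebra.mem_iInf]
  exact Iff.rfl

/-- The determinant. -/
noncomputable def dd {r : ℕ} (D : Fin r → Derivation k L L) (c : Fin r → L) : L :=
  (Matrix.of fun i j => D i (c j)).det

variable {r : ℕ} (D : Fin r → Derivation k L L) {p : ℕ} (hp : p.Prime) (hpk : (p : k) = 0)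
  (hF : IsRLie p (Submodule.span L (Set.range D)))

/-- The dual basis. -/
noncomputable def dual (c : Fin r → L) (i : Fin r) : Derivation k L L :=
  ∑ j, ((Matrix.of fun i j => D i (c j))⁻¹ i j) • D j

lemma dual_apply (c : Fin r → L) (i : Fin r) (x : L) :
    dual D c i x = ∑ j, ((Matrix.of fun i j => D i (c j))⁻¹ i j) * D j x := by
  rw [dual, der_sum_apply]
  rfl

variable {D}

lemma dual_mem (c : Fin r → L) (i : Fin r) : dual D c i ∈ Submodule.span L (Set.range D) :=
  Submodule.sum_mem _ fun j _ => Submodule.smul_mem _ _ (Submodule.subset_span ⟨j, rfl⟩)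

lemma dual_c {c : Fin r → L} (hc : dd D c ≠ 0) (i j : Fin r) :
    dual D c i (c j) = if i = j then 1 else 0 := by
  have h1 : (Matrix.of fun i j => D i (c j))⁻¹ * (Matrix.of fun i j => D i (c j)) = 1 :=
    Matrix.nonsing_inv_mul _ (isUnit_iff_ne_zero.2 hc)
  have h2 := congrFun (congrFun h1 i) j
  rw [Matrix.mul_apply, Matrix.one_apply] at h2
  rw [dual_apply]
  exact h2

/-- Cramer's rule. -/
lemma dual_eq {c : Fin r → L} (hc : dd D c ≠ 0) (i : Fin r) (x : L) :
    dual D c i x = dd D (Function.update c i x) / dd D c := by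
  have h1 : dd D (Function.update c i x) =
      ((Matrix.of fun i j => D i (c j)).adjugate.mulVec (fun j => D j x)) i := by
    rw [← Matrix.cramer_eq_adjugate_mulVec, Matrix.cramer_apply, dd]
    congr 1
    ext a b
    rw [Matrix.updateCol_apply, Matrix.of_apply, Matrix.of_apply, Function.update_apply]
    split_ifs <;> rfl
  rw [h1, dual_apply, Matrix.mulVec, dotProduct, Finset.sum_div]
  refine Finset.sum_congr rfl fun j _ => ?_
  rw [Matrix.inv_def, Matrix.smul_apply, Ring.inverse_eq_inv', smul_eq_mul]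
  change (dd D c)⁻¹ * _ * _ = _
  field_simp

lemma eq_zero_of_span {c : Fin r → L} (hc : dd D c ≠ 0) {X : Derivation k L L}
    (hX : X ∈ Submodule.span L (Set.range D)) (h : ∀ j, X (c j) = 0) : X = 0 := by
  obtain ⟨a, rfl⟩ := (Submodule.mem_span_range_iff_exists_fun L).1 hX
  have h1 : Matrix.vecMul a (Matrix.of fun i j => D i (c j)) = 0 := by
    funext j
    have h2 := h j
    rw [der_sum_apply] at h2
    exact h2
  have h2 : a = 0 := Matrix.eq_zero_of_vecMul_eq_zero hc h1
  rw [h2]
  simp

include hF in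
lemma dual_comm {c : Fin r → L} (hc : dd D c ≠ 0) (i j : Fin r) (x : L) :
    dual D c i (dual D c j x) = dual D c j (dual D c i x) := by
  have h1 : ⁅dual D c i, dual D c j⁆ = 0 := by
    refine eq_zero_of_span hc (hF.lie _ (dual_mem c i) _ (dual_mem c j)) ?_
    intro l
    rw [Derivation.commutator_apply, dual_c hc, dual_c hc]
    split_ifs <;> simp
  have h2 := congrArg (fun X : Derivation k L L => X x) h1
  simp only [Derivation.commutator_apply, Derivation.coe_zero, Pi.zero_apply] at h2
  exact sub_eq_zero.1 h2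

include hp hF in
lemma dual_pow {c : Fin r → L} (hc : dd D c ≠ 0) (i : Fin r) (x : L) :
    (dual D c i)^[p] x = 0 := by
  obtain ⟨Y, hY, h1⟩ := hF.pow _ (dual_mem c i)
  have h2 : Y = 0 := by
    refine eq_zero_of_span hc hY ?_
    intro l
    rw [← h1]
    obtain ⟨q, rfl⟩ := Nat.exists_eq_add_of_le hp.two_le
    rw [add_comm, Function.iterate_add_apply]
    have h3 : (dual D c i)^[2] (c l) = 0 := by
      change dual D c i (dual D c i (c l)) = 0
      rw [dual_c hc]
      split_ifs <;> simp
    rw [h3]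
    exact iter_zero _ _
  rw [h1, h2]
  rfl

lemma D_eq_dual {c : Fin r → L} (hc : dd D c ≠ 0) (i : Fin r) (x : L) :
    D i x = ∑ j, D i (c j) * dual D c j x := by
  have h1 : D i - ∑ j, D i (c j) • dual D c j = 0 := by
    refine eq_zero_of_span hc (Submodule.sub_mem _ (Submodule.subset_span ⟨i, rfl⟩)
      (Submodule.sum_mem _ fun j _ => Submodule.smul_mem _ _ (dual_mem c j))) ?_
    intro l
    rw [Derivation.coe_sub, Pi.sub_apply, der_sum_apply, Finset.sum_eq_single l]
    · rw [Derivation.coe_smul, Pi.smul_apply, dual_c hc, if_pos rfl, smul_eq_mul, mul_one, sub_self]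
    · intro j _ hj
      rw [Derivation.coe_smul, Pi.smul_apply, dual_c hc, if_neg hj, smul_zero]
    · intro h
      exact absurd (Finset.mem_univ l) h
  have h2 := congrArg (fun X : Derivation k L L => X x) h1
  rw [Derivation.coe_sub, Pi.sub_apply, der_sum_apply] at h2
  exact sub_eq_zero.1 h2

/-- The derivation `E` maps the algebra generated by `G` to `R`. -/
lemma der_mem (E : Derivation k L L) (R : Subalgebra k L) (G : Set L)
    (hG : G ⊆ R) (hE : ∀ x ∈ G, E x ∈ R) {x : L} (hx : x ∈ Algebra.adjoin k G) : E x ∈ R := by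
  have hle : Algebra.adjoin k G ≤ R := Algebra.adjoin_le hG
  induction hx using Algebra.adjoin_induction with
  | mem x hx => exact hE x hx
  | algebraMap c => rw [Derivation.map_algebraMap]; exact R.zero_mem
  | add x y _ _ hx hy => rw [map_add]; exact R.add_mem hx hy
  | mul x y h1 h2 hx hy =>
    rw [Derivation.leibniz, smul_eq_mul, smul_eq_mul]
    exact R.add_mem (R.mul_mem (hle h1) hy) (R.mul_mem (hle h2) hx)

include hp hpk hF in
/-- One coordinate system. -/
theorem smooth_dual (R : Subalgebra k L) (hR : Algebra.Smooth k R) {c : Fin r → L}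
    (hc : dd D c ≠ 0) (hcR : ∀ i, c i ∈ R) (hD : ∀ i, ∀ x ∈ R, dual D c i x ∈ R) :
    Algebra.Smooth k ↥(R ⊓ csts D) := by
  have key : ∀ n : ℕ, n ≤ r → Algebra.Smooth k
      ↥(R ⊓ ⨅ j : {j : Fin r // (j : ℕ) < n}, kerAlg (dual D c j.1)) := by
    intro n
    induction n with
    | zero =>
      intro _
      have h1 : (R ⊓ ⨅ j : {j : Fin r // (j : ℕ) < 0}, kerAlg (dual D c j.1)) = R := by
        refine inf_eq_left.2 ?_
        intro x _
        rw [Algebra.mem_iInf]
        rintro ⟨j, hj⟩
        exact absurd hj (Nat.not_lt_zero _)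
      rw [h1]
      exact hR
    | succ n ih =>
      intro hn
      have hsm := ih (by omega)
      set i : Fin r := ⟨n, by omega⟩ with hi
      set R' := (R ⊓ ⨅ j : {j : Fin r // (j : ℕ) < n}, kerAlg (dual D c j.1)) with hR'
      have hmem : ∀ x, x ∈ R' ↔ x ∈ R ∧ ∀ j : Fin r, (j : ℕ) < n → dual D c j x = 0 := by
        intro x
        rw [hR', Algebra.mem_inf, Algebra.mem_iInf]
        constructor
        · rintro ⟨h1, h2⟩
          exact ⟨h1, fun j hj => h2 ⟨j, hj⟩⟩
        · rintro ⟨h1, h2⟩
          exact ⟨h1, fun j => h2 j.1 j.2⟩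
      have h1 : (R ⊓ ⨅ j : {j : Fin r // (j : ℕ) < n + 1}, kerAlg (dual D c j.1)) =
          R' ⊓ kerAlg (dual D c i) := by
        ext x
        rw [Algebra.mem_inf, Algebra.mem_inf, hmem, Algebra.mem_iInf, mem_kerAlg]
        constructor
        · rintro ⟨h1, h2⟩
          exact ⟨⟨h1, fun j hj => h2 ⟨j, by omega⟩⟩, h2 ⟨i, by simp [hi]⟩⟩
        · rintro ⟨⟨h1, h2⟩, h3⟩
          refine ⟨h1, ?_⟩
          rintro ⟨j, hj⟩
          rcases Nat.lt_succ_iff_lt_or_eq.1 hj with h | h
          · exact h2 j h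
          · have : j = i := Fin.ext h
            subst this
            exact h3
      rw [h1]
      refine smooth_ker (dual D c i) hp hpk 0 (fun x => by rw [dual_pow hp hF hc, zero_mul]) (c i) 1 1
        (by rw [dual_c hc, if_pos rfl]) (one_mul 1) R' ?_ ?_ R'.one_mem hsm
      · rw [hmem]
        refine ⟨hcR i, fun j hj => ?_⟩
        rw [dual_c hc, if_neg]
        rintro rfl
        simp [hi] at hj
      · intro x hx
        rw [hmem] at hx ⊢
        refine ⟨hD i x hx.1, fun j hj => ?_⟩
        rw [dual_comm hF hc, hx.2 j hj, map_zero]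
  have h1 := key r le_rfl
  have h2 : (R ⊓ ⨅ j : {j : Fin r // (j : ℕ) < r}, kerAlg (dual D c j.1)) = R ⊓ csts D := by
    ext x
    rw [Algebra.mem_inf, Algebra.mem_inf, Algebra.mem_iInf, mem_csts]
    refine and_congr_right fun _ => ?_
    constructor
    · intro h i
      rw [D_eq_dual hc]
      refine Finset.sum_eq_zero fun j _ => ?_
      have h3 : dual D c j x = 0 := h ⟨j, j.2⟩
      rw [h3, mul_zero]
    · rintro h ⟨j, hj⟩
      change dual D c j x = 0
      rw [dual_apply]
      refine Finset.sum_eq_zero fun l _ => ?_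
      rw [h l, mul_zero]
  rw [← h2]
  exact h1

include hp hpk in
lemma pow_p_mem_csts (D : Fin r → Derivation k L L) (x : L) : x ^ p ∈ csts D := by
  rw [mem_csts]
  intro i
  have hpL : ((p : ℕ) : L) = 0 := by rw [← map_natCast (algebraMap k L), hpk, map_zero]
  rw [Derivation.leibniz_pow, nsmul_eq_mul, hpL, zero_mul]

include hp hpk hF in
/-- The quotient of a chart by a foliation whose degeneracy ideal is generated by one element
`f`. -/
theorem smooth_chart (B : Subalgebra k L) (hsm : Algebra.Smooth k B) (G : Set L)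
    (hG : B = Algebra.adjoin k G) (f : L) {ι : Type*} (s : Finset ι) (c : ι → Fin r → L)
    (b : ι → L) (hc : ∀ m i, c m i ∈ B) (hb : ∀ m, b m ∈ B)
    (hu : ∀ m, dd D (c m) / f ∈ B)
    (hup : ∀ m i, ∀ x ∈ G, dd D (Function.update (c m) i x) / f ∈ B)
    (h1 : ∑ m ∈ s, b m * (dd D (c m) / f) = 1) : Algebra.Smooth k ↥(B ⊓ csts D) := by
  classical
  have hpL : ((p : ℕ) : L) = 0 := by rw [← map_natCast (algebraMap k L), hpk, map_zero]
  have hchar : CharP L p := (CharP.charP_iff_prime_eq_zero hp).2 hpL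
  have hfact : Fact p.Prime := ⟨hp⟩
  set u : ι → L := fun m => dd D (c m) / f with hudef
  let ι' := {m : ι // m ∈ s ∧ u m ≠ 0}
  have hmem : ∀ m : ι, u m ^ p ∈ B ⊓ csts D := fun m =>
    ⟨B.pow_mem (hu m) p, pow_p_mem_csts hp hpk D _⟩
  refine smooth_of_cover (B ⊓ csts D) (ι := ι') (fun m => u m.1 ^ p) (fun m => hmem m.1)
    (fun m => pow_ne_zero _ m.2.2) ?_ ?_
  · rw [Ideal.eq_top_iff_one]
    have h2 : ∑ m ∈ s, b m ^ p * u m ^ p = 1 := by
      have h3 := congrArg (fun x => x ^ p) h1
      rw [one_pow] at h3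
      have h4 := sum_pow_char (R := L) p s (fun m => b m * u m)
      change (∑ m ∈ s, b m * u m) ^ p = 1 at h3
      rw [h4] at h3
      rw [← h3]
      exact Finset.sum_congr rfl fun m _ => (mul_pow _ _ _).symm
    have h5 : (1 : ↥(B ⊓ csts D)) = ∑ m ∈ s,
        (⟨b m ^ p, ⟨B.pow_mem (hb m) p, pow_p_mem_csts hp hpk D _⟩⟩ : ↥(B ⊓ csts D)) *
          ⟨u m ^ p, hmem m⟩ := by
      apply Subtype.ext
      rw [AddSubmonoidClass.coe_finsetSum]
      exact h2.symm
    rw [h5]
    refine Ideal.sum_mem _ fun m hm => ?_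
    by_cases h0 : u m = 0
    · have : (⟨u m ^ p, hmem m⟩ : ↥(B ⊓ csts D)) = 0 := by
        apply Subtype.ext
        change u m ^ p = 0
        rw [h0, zero_pow hp.ne_zero]
      rw [this, mul_zero]
      exact Ideal.zero_mem _
    · exact Ideal.mul_mem_left _ _ (Ideal.subset_span ⟨⟨m, hm, h0⟩, rfl⟩)
  · rintro ⟨m, hm, hum⟩
    change Algebra.Smooth k (adj (B ⊓ csts D) (u m ^ p)⁻¹)
    have hd : dd D (c m) ≠ 0 := by
      intro h0
      apply hum
      change dd D (c m) / f = 0
      rw [h0, zero_div]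
    have hf0 : f ≠ 0 := by
      rintro rfl
      apply hum
      change dd D (c m) / 0 = 0
      rw [div_zero]
    have hs0 : u m ^ p ≠ 0 := pow_ne_zero _ hum
    set R := adj B (u m ^ p)⁻¹ with hR
    have hBR : B ≤ R := le_adj _ _
    have hsR : (u m ^ p)⁻¹ ∈ R := self_mem_adj _ _
    have huinv : (u m)⁻¹ ∈ R := by
      have h2 : (u m)⁻¹ = u m ^ (p - 1) * (u m ^ p)⁻¹ := by
        have h3 : u m ^ p = u m ^ (p - 1) * u m := by
          rw [← pow_succ, Nat.sub_add_cancel hp.one_le]
        rw [h3]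
        have := pow_ne_zero (p - 1) hum
        field_simp
      rw [h2]
      exact R.mul_mem (hBR (B.pow_mem (hu m) _)) hsR
    have h2 : adj (B ⊓ csts D) (u m ^ p)⁻¹ = R ⊓ csts D := by
      apply le_antisymm
      · refine adj_le ?_ ?_
        · exact inf_le_inf_right _ hBR
        · refine ⟨hsR, ?_⟩
          rw [← inv_pow]
          exact pow_p_mem_csts hp hpk D _
      · rintro x ⟨hx1, hx2⟩
        have hx1' : x ∈ adj B (u m ^ p)⁻¹ := hx1
        rw [mem_adj_inv (B.pow_mem (hu m) p) hs0] at hx1'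
        obtain ⟨n, hn⟩ := hx1'
        refine (mem_adj_inv (hmem m) hs0).2 ⟨n, hn, ?_⟩
        exact (csts D).mul_mem hx2 ((csts D).pow_mem (pow_p_mem_csts hp hpk D _) n)
    rw [h2]
    have hdc : ∀ i, dual D (c m) i (u m ^ p) = 0 := by
      intro i
      rw [Derivation.leibniz_pow, nsmul_eq_mul, hpL, zero_mul]
    have hBd : ∀ i, ∀ y ∈ B, dual D (c m) i y ∈ R := by
      intro i y hy
      rw [hG] at hy
      refine der_mem _ R G ?_ ?_ hy
      · intro x hx
        apply hBR
        rw [hG]
        exact Algebra.subset_adjoin hx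
      · intro x hx
        rw [dual_eq hd]
        have h3 : dd D (Function.update (c m) i x) / dd D (c m) =
            (dd D (Function.update (c m) i x) / f) * (u m)⁻¹ := by
          change _ = _ * (dd D (c m) / f)⁻¹
          field_simp
        rw [h3]
        exact R.mul_mem (hBR (hup m i x hx)) huinv
    refine smooth_dual hp hpk hF R (smooth_adj_inv (B.pow_mem (hu m) p) hs0) hd
      (fun i => hBR (hc m i)) ?_
    intro i x hx
    have hx' : x ∈ adj B (u m ^ p)⁻¹ := hx
    rw [mem_adj_inv (B.pow_mem (hu m) p) hs0] at hx'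
    obtain ⟨n, hn⟩ := hx'
    have h4 := hBd i _ hn
    have h5 : dual D (c m) i ((u m ^ p) ^ n) = 0 := by
      rw [Derivation.leibniz_pow, hdc, smul_zero, smul_zero]
    rw [Derivation.leibniz, h5, smul_zero, zero_add, smul_eq_mul] at h4
    have h6 : dual D (c m) i x = ((u m ^ p) ^ n * dual D (c m) i x) * ((u m ^ p)⁻¹) ^ n := by
      rw [mul_right_comm, ← mul_pow, mul_inv_cancel₀ hs0, one_pow, one_mul]
    rw [h6]
    exact R.mul_mem h4 (R.pow_mem hsR n)

end fol

end Pool.Agent.Q40.RS
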