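import Pool.Agent.Q40.RS.Proj
import Pool.Agent.Q40.FC.LU2

/-! Local uniformization of quotients by relative foliations. -/

set_option autoImplicit false
set_option linter.unusedSectionVars false

universe u

namespace Pool.Agent.Q40.RS

open Pool.Agent.W558 Pool.Agent.H920R2 Pool.Agent.W418.LCI Pool.Agent.Q40.FC

variable {k E L : Type} [Field k] [Field E] [Field L] [Algebra k E] [Algebra k L]
  [Algebra E L] [IsScalarTower k E L]

/-- The quotient is smooth where the degeneracy ideal is principal. -/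
theorem smooth_of_deg {p : ℕ} (hp : p.Prime) (hpk : (p : k) = 0) {r : ℕ}
    (D : Fin r → Derivation k L L) (hF : IsRLie p (Submodule.span L (Set.range D)))
    (hDE : ∀ i (x : E), D i (algebraMap E L x) = 0) (A R : Subalgebra k E) (hRA : R ≤ A)
    (hR : ∀ x : E, ∃ a ∈ R, ∃ b ∈ R, b ≠ 0 ∧ x = a * b⁻¹) (hA : Algebra.Smooth k A)
    (B : Subalgebra k L) (hDB : ∀ i, ∀ b ∈ B, D i b ∈ B) (ρ : R →+* B)
    (hρ : ∀ r : R, (ρ r : L) = algebraMap E L r) (hρs : ρ.Smooth) (I : Ideal R)
    (hI : dgi B D = I.map ρ) (S : Finset R) (hS : Ideal.span (S : Set R) = I)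
    (f : R) (hf : f ∈ S) (hf0 : f ≠ 0) (hdiv : ∀ x ∈ S, (x : E) / (f : E) ∈ A) :
    Algebra.Smooth k ↥(mulA A B ⊓ csts D) := by
  have hf0' : (f : E) ≠ 0 := fun h => hf0 (Subtype.ext h)
  have hfL : algebraMap E L f ≠ 0 := (map_ne_zero _).2 hf0'
  have hdivB : ∀ b ∈ I.map ρ, (b : L) / algebraMap E L f ∈ mulA A B := by
    intro b hb
    rw [← hS, Ideal.map_span] at hb
    induction hb using Submodule.span_induction with
    | mem x hx =>
      obtain ⟨x, hx, rfl⟩ := hx
      rw [hρ, ← map_div₀]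
      exact le_mulA _ (hdiv x hx)
    | zero =>
      rw [ZeroMemClass.coe_zero, zero_div]
      exact Subalgebra.zero_mem _
    | add x y _ _ hx hy =>
      rw [Subalgebra.coe_add, add_div]
      exact Subalgebra.add_mem _ hx hy
    | smul c x _ hx =>
      rw [smul_eq_mul, Subalgebra.coe_mul, mul_div_assoc]
      exact Subalgebra.mul_mem _ (le_mulA' _ c.2) hx
  have hBsm : Algebra.Smooth k (mulA A B) := smooth_mulA A R hRA hR hA B ρ hρ hρs
  have hddmem : ∀ (c : Fin r → B), dd D (fun i => (c i : L)) ∈ B := by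
    intro c
    rw [dd, Matrix.det_apply]
    refine Subalgebra.sum_mem _ fun σ _ => ?_
    have h1 : ∏ i, (Matrix.of fun i j_1 => (D i) (c j_1 : L)) (σ i) i ∈ B :=
      Subalgebra.prod_mem _ fun i _ => hDB _ _ (c i).2
    rcases Int.units_eq_one_or (Equiv.Perm.sign σ) with h2 | h2
    · rw [h2, one_smul]; exact h1
    · rw [h2, Units.neg_smul, one_smul]; exact Subalgebra.neg_mem _ h1
  have h1 : ρ f ∈ dgi B D := by
    rw [hI]
    refine Ideal.mem_map_of_mem _ ?_
    rw [← hS]
    exact Ideal.subset_span hf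
  let δ : (Fin r → B) → B := fun c => ⟨_, hddmem c⟩
  have hδ : dgi B D = Ideal.span (Set.range δ) := by
    rw [dgi]
    congr 1
    ext b
    constructor
    · rintro ⟨c, hc⟩
      exact ⟨c, Subtype.ext hc.symm⟩
    · rintro ⟨c, rfl⟩
      exact ⟨c, rfl⟩
  have hu : ∀ c : Fin r → B, dd D (fun i => (c i : L)) / algebraMap E L f ∈ mulA A B := by
    intro c
    refine hdivB (δ c) ?_
    rw [← hI, hδ]
    exact Ideal.subset_span ⟨c, rfl⟩
  rw [hδ] at h1
  obtain ⟨α, hα⟩ := (Finsupp.mem_span_range_iff_exists_finsupp).1 h1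
  refine smooth_chart hp hpk hF (mulA A B) hBsm
    ((IsScalarTower.toAlgHom k E L) '' (A : Set E) ∪ (B : Set L)) ?_
    (algebraMap E L f) α.support (fun (c : Fin r → B) i => (c i : L))
    (fun c => (α c : L)) (fun c i => le_mulA' _ (c i).2)
    (fun c => le_mulA' _ (α c).2) hu ?_ ?_
  · rw [mulA, Algebra.adjoin_union]
    congr 1
    · have := Algebra.adjoin_eq (A.map (IsScalarTower.toAlgHom k E L))
      exact this.symm
    · exact (Algebra.adjoin_eq _).symm
  · rintro c i x (⟨y, hy, rfl⟩ | hx)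
    · have h2 : dd D (Function.update (fun i => (c i : L)) i
          ((IsScalarTower.toAlgHom k E L) y)) = 0 := by
        refine Matrix.det_eq_zero_of_column_eq_zero i fun j => ?_
        rw [Matrix.of_apply, Function.update_self]
        exact hDE j y
      rw [h2, zero_div]
      exact Subalgebra.zero_mem _
    · have h2 : Function.update (fun i => (c i : L)) i x =
          fun j => (Function.update c i ⟨x, hx⟩ j : L) := by
        funext j
        rw [Function.update_apply, Function.update_apply]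
        split_ifs <;> rfl
      rw [h2]
      exact hu _
  · have h2 : ∑ c ∈ α.support, (α c : L) * (dd D (fun i => (c i : L)) / algebraMap E L f) =
        ((α.sum fun c b => b • δ c : B) : L) / algebraMap E L f := by
      rw [Finsupp.sum, AddSubmonoidClass.coe_finsetSum, Finset.sum_div]
      refine Finset.sum_congr rfl fun c _ => ?_
      rw [smul_eq_mul, Subalgebra.coe_mul, mul_div_assoc]
    rw [h2, hα, hρ]
    exact div_self hfL

/-- Local uniformization along valuations whose restriction to the base is uniformizable. -/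
theorem lu_deg {p : ℕ} (hp : p.Prime) (hpk : (p : k) = 0) {r : ℕ}
    (D : Fin r → Derivation k L L) (hF : IsRLie p (Submodule.span L (Set.range D)))
    (hDE : ∀ i (x : E), D i (algebraMap E L x) = 0) (R : Subalgebra k E) (hRfg : R.FG)
    (hR : ∀ x : E, ∃ a ∈ R, ∃ b ∈ R, b ≠ 0 ∧ x = a * b⁻¹)
    (B : Subalgebra k L) (hDB : ∀ i, ∀ b ∈ B, D i b ∈ B) (ρ : R →+* B)
    (hρ : ∀ r : R, (ρ r : L) = algebraMap E L r) (hρs : ρ.Smooth) (I : Ideal R) (hI0 : I ≠ ⊥)
    (hI : dgi B D = I.map ρ) (W : ValuationSubring L)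
    (hW : ∀ x ∈ B ⊓ csts D, x ∈ W) (hu : Unif k (W.comap (algebraMap E L))) :
    ∃ D' : Subalgebra k L, Algebra.Smooth k D' ∧ B ⊓ csts D ≤ D' ∧ (∀ x ∈ D', x ∈ W) ∧
      ∀ x ∈ D', x ∈ csts D := by
  classical
  have hft : Algebra.FiniteType k R := (Subalgebra.fg_iff_finiteType _).1 hRfg
  have hnoe : IsNoetherianRing R := Algebra.FiniteType.isNoetherianRing k R
  obtain ⟨S0, hS0⟩ : I.FG := IsNoetherian.noetherian I
  let S : Finset R := S0.erase 0
  have hS : Ideal.span (S : Set R) = I := by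
    rw [← hS0]
    apply le_antisymm
    · exact Ideal.span_mono (by exact_mod_cast Finset.erase_subset _ _)
    · refine Ideal.span_le.2 fun x hx => ?_
      by_cases h0 : x = 0
      · rw [h0]; exact Ideal.zero_mem _
      · exact Ideal.subset_span (Finset.mem_coe.2 (Finset.mem_erase.2 ⟨h0, hx⟩))
  have hSne : S.Nonempty := by
    rw [Finset.nonempty_iff_ne_empty]
    intro h
    apply hI0
    rw [← hS, h]
    simp
  let U := W.comap (algebraMap E L)
  obtain ⟨f, hf, hmin⟩ := Finset.exists_max_image S (fun x : R => U.valuation (x : E)) hSne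
  have hf0 : f ≠ 0 := (Finset.mem_erase.1 hf).1
  have hf0' : (f : E) ≠ 0 := fun h => hf0 (Subtype.ext h)
  have hvf : U.valuation (f : E) ≠ 0 := (map_ne_zero _).2 hf0'
  have hdivU : ∀ x ∈ S, (x : E) / (f : E) ∈ U := by
    intro x hx
    rw [← U.valuation_le_one_iff, map_div₀]
    exact (div_le_one₀ (zero_lt_iff.2 hvf)).2 (hmin x hx)
  obtain ⟨G, hG⟩ := hRfg
  have hRU : ∀ x ∈ R, x ∈ U := by
    intro x hx
    have h1 : algebraMap E L x ∈ B ⊓ csts D := by
      refine ⟨?_, mem_csts.2 fun i => hDE i x⟩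
      rw [← hρ ⟨x, hx⟩]
      exact (ρ ⟨x, hx⟩).2
    exact hW _ h1
  obtain ⟨A, hA, hZA, hAU⟩ := hu (G ∪ S.image fun x : R => (x : E) / (f : E)) (by
    intro z hz
    rcases Finset.mem_union.1 hz with hz | hz
    · exact hRU z (by rw [← hG]; exact Algebra.subset_adjoin hz)
    · obtain ⟨x, hx, rfl⟩ := Finset.mem_image.1 hz
      exact hdivU x hx)
  have hRA : R ≤ A := by
    rw [← hG]
    exact Algebra.adjoin_le fun z hz => hZA z (Finset.mem_union_left _ hz)
  have hdiv : ∀ x ∈ S, (x : E) / (f : E) ∈ A := fun x hx =>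
    hZA _ (Finset.mem_union_right _ (Finset.mem_image_of_mem _ hx))
  refine ⟨mulA A B ⊓ csts D, smooth_of_deg hp hpk D hF hDE A R hRA hR hA B hDB ρ hρ hρs I
    hI S hS f hf hf0 hdiv, fun x hx => ⟨le_mulA' _ hx.1, hx.2⟩, ?_, fun x hx => hx.2⟩
  have hBW : ∀ b ∈ B, b ∈ W := by
    intro b hb
    have h1 : b ^ p ∈ W := hW _ ⟨B.pow_mem hb p, pow_p_mem_csts hp hpk D b⟩
    rw [← W.valuation_le_one_iff, map_pow] at h1
    rw [← W.valuation_le_one_iff]
    exact (pow_le_one_iff hp.ne_zero).1 h1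
  intro x hx
  refine mulA_induction (P := fun x => x ∈ W) ?_ (fun x y => W.add_mem x y) hx.1
  intro a ha b hb
  exact W.mul_mem _ _ (hAU a ha) (hBW b hb)

/-- Fractions of constants. -/
theorem frac_csts {p : ℕ} (hp : p.Prime) (hpk : (p : k) = 0) {r : ℕ}
    (D : Fin r → Derivation k L L) (B : Subalgebra k L)
    (hfr : ∀ x : L, ∃ a ∈ B, ∃ b ∈ B, b ≠ 0 ∧ x = a * b⁻¹) (x : L) (hx : x ∈ csts D) :
    ∃ a ∈ B ⊓ csts D, ∃ b ∈ B ⊓ csts D, b ≠ 0 ∧ x = a / b := by
  obtain ⟨a, ha, b, hb, hb0, h⟩ := hfr x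
  have hbp : b ^ p ∈ B ⊓ csts D := ⟨B.pow_mem hb p, pow_p_mem_csts hp hpk D b⟩
  have hxb : x * b ^ p ∈ B ⊓ csts D := by
    refine ⟨?_, (csts D).mul_mem hx hbp.2⟩
    have h1 : x * b ^ p = a * b ^ (p - 1) := by
      have h2 : b ^ p = b ^ (p - 1) * b := by
        rw [← pow_succ, Nat.sub_add_cancel hp.one_le]
      rw [h, h2]
      field_simp
    rw [h1]
    exact Subalgebra.mul_mem _ ha (Subalgebra.pow_mem _ hb _)
  exact ⟨_, hxb, _, hbp, pow_ne_zero p hb0, by rw [mul_div_cancel_right₀ _ (pow_ne_zero p hb0)]⟩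

end Pool.Agent.Q40.RS

namespace Pool.Agent.Q40.RS

open Pool.Agent.W558 Pool.Agent.H920R2 Pool.Agent.W418.LCI Pool.Agent.Q40.FC

section ring

variable {k R B E L : Type} [Field k] [CommRing R] [IsDomain R] [Algebra k R] [CommRing B]
  [IsDomain B] [Algebra k B] [Algebra R B] [IsScalarTower k R B] [Field E] [Algebra k E]
  [Algebra R E] [IsScalarTower k R E] [IsFractionRing R E] [Field L] [Algebra k L] [Algebra B L]
  [IsScalarTower k B L] [Algebra R L] [IsScalarTower R B L] [Algebra E L] [IsScalarTower R E L]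
  [IsScalarTower k E L] [IsFractionRing B L]

/-- Local uniformization, the version for rings. -/
theorem lu_ring {p : ℕ} (hp : p.Prime) (hpk : (p : k) = 0) [Algebra.FiniteType k R]
    [Algebra.Smooth R B] {r : ℕ} (D : Fin r → Derivation k L L)
    (hF : IsRLie p (Submodule.span L (Set.range D)))
    (hDE : ∀ i (x : E), D i (algebraMap E L x) = 0)
    (hDB : ∀ i (b : B), ∃ b' : B, D i (algebraMap B L b) = algebraMap B L b')
    (I : Ideal R) (hI0 : I ≠ ⊥)
    (hI : Ideal.span {b : B | ∃ c : Fin r → B, algebraMap B L b =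
      dd D (fun i => algebraMap B L (c i))} = I.map (algebraMap R B))
    (W : ValuationSubring L)
    (hW : ∀ b : B, (∀ i, D i (algebraMap B L b) = 0) → algebraMap B L b ∈ W)
    (hu : Unif k (W.comap (algebraMap E L))) :
    ∃ D' : Subalgebra k L, Algebra.Smooth k D' ∧
      (∀ b : B, (∀ i, D i (algebraMap B L b) = 0) → algebraMap B L b ∈ D') ∧ (∀ x ∈ D', x ∈ W) ∧
      ∀ x ∈ D', x ∈ csts D := by
  have hBL : Function.Injective (algebraMap B L) := IsFractionRing.injective B L
  have hRE : Function.Injective (algebraMap R E) := IsFractionRing.injective R E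
  obtain ⟨ρ, hρ, hρs⟩ := exists_rho (k := k) (R := R) (B := B) (E := E) (L := L) hBL
  let eR : R →+* img k R E := (algebraMap R E).codRestrict (img k R E) fun a => ⟨a, rfl⟩
  let eB : B →+* img k B L := (algebraMap B L).codRestrict (img k B L) fun a => ⟨a, rfl⟩
  have heR : ∀ a, (eR a : E) = algebraMap R E a := fun a => rfl
  have heB : ∀ a, (eB a : L) = algebraMap B L a := fun a => rfl
  have hcomm : ρ.comp eR = eB.comp (algebraMap R B) := by
    ext a
    change (ρ (eR a) : L) = eB (algebraMap R B a)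
    rw [hρ, heR, heB, ← IsScalarTower.algebraMap_apply R E L, ← IsScalarTower.algebraMap_apply R B L]
  have h1 : dgi (img k B L) D = (I.map eR).map ρ := by
    rw [Ideal.map_map, hcomm, ← Ideal.map_map, ← hI, Ideal.map_span, dgi]
    congr 1
    ext y
    constructor
    · rintro ⟨c, hc⟩
      choose c' hc' using fun i => (c i).2
      obtain ⟨b, hb⟩ := y.2
      have hb' : algebraMap B L b = y := hb
      have hc'' : ∀ i, algebraMap B L (c' i) = c i := hc'
      refine ⟨b, ⟨c', ?_⟩, Subtype.ext hb'⟩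
      rw [hb', hc]
      congr 1
      funext i
      exact (hc'' i).symm
    · rintro ⟨b, ⟨c, hc⟩, rfl⟩
      exact ⟨fun i => eB (c i), hc⟩
  have h2 : I.map eR ≠ ⊥ := by
    intro h
    apply hI0
    rw [Ideal.map_eq_bot_iff_le_ker] at h
    rw [eq_bot_iff]
    intro x hx
    have h3 : eR x = 0 := h hx
    have h4 : algebraMap R E x = 0 := congrArg Subtype.val h3
    exact hRE (by rw [h4, map_zero])
  obtain ⟨D', hD1, hD2, hD3, hD4⟩ := lu_deg hp hpk D hF hDE (img k R E) img_fg img_frac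
    (img k B L) (by
      rintro i _ ⟨b, rfl⟩
      obtain ⟨b', hb'⟩ := hDB i b
      exact ⟨b', hb'.symm⟩) ρ hρ hρs (I.map eR) h2 h1 W (by
      rintro _ ⟨⟨b, rfl⟩, hb⟩
      exact hW b (mem_csts.1 hb)) hu
  exact ⟨D', hD1, fun b hb => hD2 ⟨⟨b, rfl⟩, mem_csts.2 hb⟩, hD3, hD4⟩

end ring

end Pool.Agent.Q40.RS
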