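import Pool.Agent.Q40.RS.Fol
import Pool.Agent.Q40.RS.Base
import Pool.Agent.W558.Atlas
import Pool.Agent.H920R2.Fol7

/-! The resolution of the quotient of `X = Spec B`, smooth over `S = Spec R`, by a relative
foliation whose degeneracy ideal is extended from `R`. -/

set_option autoImplicit false
set_option linter.unusedSectionVars false

universe u

namespace Pool.Agent.Q40.RS

open Pool.Agent.W558 Pool.Agent.H920R2 Pool.Agent.W418.LCI AlgebraicGeometry CategoryTheory

section setup

variable {k R B E L : Type u} [Field k] [CommRing R] [IsDomain R] [Algebra k R] [CommRing B]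
  [IsDomain B] [Algebra k B] [Algebra R B] [IsScalarTower k R B] [Field E] [Algebra k E]
  [Algebra R E] [IsScalarTower k R E] [IsFractionRing R E] [Field L] [Algebra k L] [Algebra B L]
  [IsScalarTower k B L] [Algebra R L] [IsScalarTower R B L] [Algebra E L] [IsScalarTower R E L]
  [IsScalarTower k E L]

variable (k R E) in
/-- The image of `R` in `E`. -/
noncomputable def img : Subalgebra k E := (IsScalarTower.toAlgHom k R E).range

lemma mem_img {x : E} : x ∈ img k R E ↔ ∃ r : R, algebraMap R E r = x := Iff.rfl

lemma img_frac (x : E) : ∃ a ∈ img k R E, ∃ b ∈ img k R E, b ≠ 0 ∧ x = a * b⁻¹ := by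
  obtain ⟨a, b, hb, rfl⟩ := IsFractionRing.div_surjective (A := R) x
  refine ⟨_, ⟨a, rfl⟩, _, ⟨b, rfl⟩, ?_, ?_⟩
  · exact IsFractionRing.to_map_ne_zero_of_mem_nonZeroDivisors hb
  · rw [div_eq_mul_inv]
    rfl

lemma img_fg [Algebra.FiniteType k R] : (img k R E).FG := by
  have h : (⊤ : Subalgebra k R).FG := Algebra.FiniteType.out
  have h1 := h.map (IsScalarTower.toAlgHom k R E)
  rwa [Algebra.map_top] at h1

/-- The smooth morphism between the images. -/
theorem exists_rho [Algebra.Smooth R B] (hBL : Function.Injective (algebraMap B L)) :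
    ∃ ρ : img k R E →+* img k B L, (∀ r : img k R E, (ρ r : L) = algebraMap E L r) ∧
      ρ.Smooth := by
  let eR : R ≃ₐ[k] img k R E := AlgEquiv.ofInjective (IsScalarTower.toAlgHom k R E)
    (IsFractionRing.injective R E)
  let eB : B ≃ₐ[k] img k B L := AlgEquiv.ofInjective (IsScalarTower.toAlgHom k B L) hBL
  refine ⟨(eB : B →+* img k B L).comp ((algebraMap R B).comp (eR.symm : img k R E →+* R)), ?_, ?_⟩
  · intro r
    obtain ⟨r', rfl⟩ := eR.surjective r
    change algebraMap B L (algebraMap R B (eR.symm (eR r'))) = algebraMap E L (algebraMap R E r')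
    rw [AlgEquiv.symm_apply_apply, ← IsScalarTower.algebraMap_apply R B L,
      ← IsScalarTower.algebraMap_apply R E L]
  · refine RingHom.Smooth.comp (RingHom.Smooth.comp ?_ ?_) ?_
    · exact RingHom.Smooth.of_bijective eR.symm.bijective
    · exact RingHom.smooth_algebraMap.2 inferInstance
    · exact RingHom.Smooth.of_bijective eB.bijective

/-- The subalgebra of common constants in `B`. -/
def cB {r : ℕ} (B : Type u) [CommRing B] [Algebra k B] [Algebra B L] [IsScalarTower k B L]
    (D : Fin r → Derivation k L L) : Subalgebra k B where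
  carrier := {b | ∀ i, D i (algebraMap B L b) = 0}
  mul_mem' := by
    intro x y hx hy i
    rw [map_mul, Derivation.leibniz, hx i, hy i, smul_zero, smul_zero, add_zero]
  add_mem' := by
    intro x y hx hy i
    rw [map_add, map_add, hx i, hy i, add_zero]
  algebraMap_mem' := fun c i => by
    rw [← IsScalarTower.algebraMap_apply, Derivation.map_algebraMap]

lemma mem_cB {r : ℕ} {D : Fin r → Derivation k L L} {b : B} :
    b ∈ cB B D ↔ ∀ i, D i (algebraMap B L b) = 0 := Iff.rfl

section fin

variable {p : ℕ} (hp : p.Prime) (hpk : (p : k) = 0) {r : ℕ} (D : Fin r → Derivation k L L)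

include hpk in
lemma pow_mem_cB (b : B) : b ^ p ∈ cB B D := by
  intro i
  have hpL : ((p : ℕ) : L) = 0 := by rw [← map_natCast (algebraMap k L), hpk, map_zero]
  rw [map_pow, Derivation.leibniz_pow, nsmul_eq_mul, hpL, zero_mul]

include hp hpk in
lemma finiteType_cB [Algebra.FiniteType k B] : Algebra.FiniteType k (cB B D) := by
  have h1 : Algebra.IsIntegral (cB B D) B := by
    constructor
    intro b
    refine ⟨Polynomial.X ^ p - Polynomial.C ⟨b ^ p, pow_mem_cB hpk D b⟩,
      Polynomial.monic_X_pow_sub_C _ hp.ne_zero, ?_⟩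
    rw [Polynomial.eval₂_sub, Polynomial.eval₂_pow, Polynomial.eval₂_X, Polynomial.eval₂_C]
    exact sub_self _
  have h2 : Algebra.FiniteType (cB B D) B := by
    apply Algebra.FiniteType.of_restrictScalars_finiteType k
  have h3 : Module.Finite (cB B D) B := Algebra.IsIntegral.finite
  refine ⟨?_⟩
  refine fg_of_fg_of_fg k (cB B D) B ?_ h3.1 ?_
  · exact (inferInstance : Algebra.FiniteType k B).1
  · exact Subtype.val_injective

end fin

/-- Elements of the extended ideal are divisible by the generator `f` on the chart. -/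
lemma div_mem {S : Finset R} {A : Subalgebra k E} {f : E}
    (hA : ∀ s ∈ S, algebraMap R E s / f ∈ A) {b : B}
    (hb : b ∈ (Ideal.span (S : Set R)).map (algebraMap R B)) :
    algebraMap B L b / algebraMap E L f ∈ mulA A (img k B L) := by
  rw [Ideal.map_span] at hb
  induction hb using Submodule.span_induction with
  | mem x hx =>
    obtain ⟨s, hs, rfl⟩ := hx
    rw [← IsScalarTower.algebraMap_apply R B L, IsScalarTower.algebraMap_apply R E L, ← map_div₀]
    exact le_mulA _ (hA s hs)
  | zero => rw [map_zero, zero_div]; exact Subalgebra.zero_mem _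
  | add x y _ _ hx hy => rw [map_add, add_div]; exact Subalgebra.add_mem _ hx hy
  | smul a x _ hx =>
    rw [smul_eq_mul, map_mul, mul_div_assoc]
    exact Subalgebra.mul_mem _ (le_mulA' _ ⟨a, rfl⟩) hx

/-- The resolution of the quotient. -/
theorem main {p : ℕ} (hp : p.Prime) (hpk : (p : k) = 0) [Algebra.FiniteType k R]
    (hE : HasLM k E) [Algebra.Smooth R B] (hBL : Function.Injective (algebraMap B L))
    {r : ℕ} (D : Fin r → Derivation k L L) (hDE : ∀ i (x : E), D i (algebraMap E L x) = 0)
    (hDB : ∀ i (b : B), ∃ b' : B, D i (algebraMap B L b) = algebraMap B L b')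
    (hF : IsRLie p (Submodule.span L (Set.range D))) (δ : (Fin r → B) → B)
    (hδ : ∀ c, algebraMap B L (δ c) = dd D (fun i => algebraMap B L (c i)))
    (I : Ideal R) (hI0 : I ≠ ⊥) (hI : Ideal.span (Set.range δ) = I.map (algebraMap R B)) :
    HasResolution (X := Spec (CommRingCat.of (cB B D)))
      (Spec.map (CommRingCat.ofHom (algebraMap k (cB B D)))) := by
  classical
  have hnoe : IsNoetherianRing R := Algebra.FiniteType.isNoetherianRing k R
  obtain ⟨S0, hS0⟩ : I.FG := IsNoetherian.noetherian I
  let S : Finset R := S0.erase 0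
  have hS : Ideal.span (S : Set R) = I := by
    rw [← hS0]
    apply le_antisymm
    · exact Ideal.span_mono (by exact_mod_cast Finset.erase_subset _ _)
    · refine Ideal.span_le.2 fun x hx => ?_
      by_cases h0 : x = 0
      · rw [h0]; exact Ideal.zero_mem _
      · exact Ideal.subset_span (Finset.mem_coe.2 (Finset.mem_erase.2 ⟨h0, hx⟩))
  have hSne : S.Nonempty := by
    rw [Finset.nonempty_iff_ne_empty]
    intro h
    apply hI0
    rw [← hS, h]
    simp
  let q := S.equivFin
  let g : Fin S.card → E := fun i => algebraMap R E (q.symm i).1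
  have hREinj : Function.Injective (algebraMap R E) := IsFractionRing.injective R E
  have hg : ∀ a, g a ≠ 0 := by
    intro a h
    have h1 := (Finset.mem_erase.1 (q.symm a).2).1
    exact h1 (hREinj (by rw [map_zero]; exact h))
  obtain ⟨T, I', hT, hI', M, hM⟩ := exists_cmp hE (img k R E) img_fg img_frac (Fin S.card) g hg
  have hne : (Finset.univ : Finset (Fin S.card)).Nonempty := by
    obtain ⟨x, hx⟩ := hSne
    exact ⟨q ⟨x, hx⟩, Finset.mem_univ _⟩
  choose i0 hi0' hi0 using fun t => exists_min (M.A t) Finset.univ hne g hg (hM t)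
  let f : T → E := fun t => g (i0 t)
  have hf0 : ∀ t, f t ≠ 0 := fun t => hg _
  have hdiv : ∀ t, ∀ s ∈ S, algebraMap R E s / f t ∈ M.A t := by
    intro t s hs
    have h1 := hi0 t (q ⟨s, hs⟩) (Finset.mem_univ _)
    have h2 : g (q ⟨s, hs⟩) = algebraMap R E s := by
      change algebraMap R E (q.symm (q ⟨s, hs⟩)).1 = _
      rw [Equiv.symm_apply_apply]
    rwa [h2] at h1
  have hdivB : ∀ t, ∀ b ∈ I.map (algebraMap R B),
      algebraMap B L b / algebraMap E L (f t) ∈ mulA (M.A t) (img k B L) := by
    intro t b hb
    rw [← hS] at hb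
    exact div_mem (hdiv t) hb
  obtain ⟨ρ, hρ, hρs⟩ := exists_rho (k := k) (R := R) (B := B) (E := E) (L := L) hBL
  let Bt : T → Subalgebra k L := fun t => mulA (M.A t) (img k B L)
  have hBt : ∀ t, Algebra.Smooth k (Bt t) := fun t =>
    smooth_mulA (M.A t) (img k R E) (M.base t) img_frac (M.sm t) (img k B L) ρ hρ hρs
  have hEL : ∀ x : E, algebraMap E L x ∈ csts D := fun x => mem_csts.2 fun i => hDE i x
  -- smoothness
  have hsm : ∀ t, Algebra.Smooth k ↥(Bt t ⊓ csts D) := by
    intro t
    have h1 : algebraMap R B (q.symm (i0 t)).1 ∈ Ideal.span (Set.range δ) := by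
      rw [hI]
      refine Ideal.mem_map_of_mem _ ?_
      rw [← hS]
      exact Ideal.subset_span (q.symm (i0 t)).2
    obtain ⟨a, ha⟩ := (Finsupp.mem_span_range_iff_exists_finsupp).1 h1
    refine smooth_chart hp hpk hF (Bt t) (hBt t)
      ((IsScalarTower.toAlgHom k E L) '' (M.A t) ∪ (img k B L : Set L)) ?_
      (algebraMap E L (f t)) a.support (fun (c : Fin r → B) i => algebraMap B L (c i))
      (fun c => algebraMap B L (a c)) (fun c i => le_mulA' _ ⟨c i, rfl⟩)
      (fun c => le_mulA' _ ⟨a c, rfl⟩) ?_ ?_ ?_
    · change mulA _ _ = _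
      rw [mulA, Algebra.adjoin_union]
      congr 1
      · have := Algebra.adjoin_eq ((M.A t).map (IsScalarTower.toAlgHom k E L))
        exact this.symm
      · exact (Algebra.adjoin_eq _).symm
    · intro c
      rw [← hδ]
      apply hdivB
      rw [← hI]
      exact Ideal.subset_span ⟨c, rfl⟩
    · rintro c i x (⟨y, hy, rfl⟩ | ⟨b, rfl⟩)
      · have h2 : dd D (Function.update (fun i => algebraMap B L (c i)) i
            ((IsScalarTower.toAlgHom k E L) y)) = 0 := by
          refine Matrix.det_eq_zero_of_column_eq_zero i fun j => ?_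
          rw [Matrix.of_apply, Function.update_self]
          exact hDE j y
        rw [h2, zero_div]
        exact Subalgebra.zero_mem _
      · have h2 : Function.update (fun i => algebraMap B L (c i)) i
            ((IsScalarTower.toAlgHom k B L) b) =
            fun j => algebraMap B L (Function.update c i b j) := by
          funext j
          rw [Function.update_apply, Function.update_apply]
          split_ifs <;> rfl
        change dd D (Function.update (fun i => algebraMap B L (c i)) i
            ((IsScalarTower.toAlgHom k B L) b)) / _ ∈ _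
        rw [h2, ← hδ]
        apply hdivB
        rw [← hI]
        exact Ideal.subset_span ⟨_, rfl⟩
    · have h2 : ∑ c ∈ a.support, algebraMap B L (a c) *
          (dd D (fun i => algebraMap B L (c i)) / algebraMap E L (f t)) =
          algebraMap B L (a.sum fun c b => b • δ c) / algebraMap E L (f t) := by
        rw [Finsupp.sum, map_sum, Finset.sum_div]
        refine Finset.sum_congr rfl fun c _ => ?_
        rw [smul_eq_mul, map_mul, hδ, mul_div_assoc]
      rw [h2, ha, ← IsScalarTower.algebraMap_apply R B L, IsScalarTower.algebraMap_apply R E L]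
      exact div_self ((map_ne_zero _).2 (hf0 t))
  -- the atlas
  let gC : cB B D →ₐ[k] L := (IsScalarTower.toAlgHom k B L).comp (cB B D).val
  have hgC : ∀ a : cB B D, gC a = algebraMap B L a.1 := fun a => rfl
  have hinj : Function.Injective gC := hBL.comp Subtype.val_injective
  refine hasResolution_of_atl gC hinj (T := T) (C := fun t => Bt t ⊓ csts D)
    (H := fun t => algebraMap E L (M.H t))
    { sm := hsm
      aa := fun t a => ⟨le_mulA' _ ⟨a.1, rfl⟩, mem_csts.2 fun i => a.2 i⟩
      H0 := fun t => (map_ne_zero _).2 (M.H0 t)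
      hA := ?_
      rt := ?_
      gl := ?_
      dn := ?_
      cv := ?_ }
  · intro t
    obtain ⟨s, hs⟩ := M.HR t
    have hs' : algebraMap R E s = M.H t := hs
    refine ⟨⟨algebraMap R B s, fun i => ?_⟩, ?_⟩
    · rw [← IsScalarTower.algebraMap_apply R B L, IsScalarTower.algebraMap_apply R E L]
      exact hDE i _
    · rw [hgC, ← hs', ← IsScalarTower.algebraMap_apply R B L,
        ← IsScalarTower.algebraMap_apply R E L]
  · intro t t'
    rw [← map_div₀]
    exact ⟨le_mulA _ (M.rt t t'), hEL _⟩
  · intro t t' x hx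
    have h1 : ∃ n : ℕ, (algebraMap E L (M.H t') / algebraMap E L (M.H t)) ^ n * x ∈ Bt t := by
      refine mulA_induction (P := fun x => ∃ n : ℕ,
        (algebraMap E L (M.H t') / algebraMap E L (M.H t)) ^ n * x ∈ Bt t) ?_ ?_ hx.1
      · intro a ha b hb
        obtain ⟨n, hn⟩ := M.gl t t' a ha
        refine ⟨n, ?_⟩
        rw [← mul_assoc, ← map_div₀, ← map_pow, ← map_mul]
        exact (Bt t).mul_mem (le_mulA _ hn) (le_mulA' _ hb)
      · rintro x y ⟨n, hn⟩ ⟨m, hm⟩
        refine ⟨n + m, ?_⟩
        have hr : algebraMap E L (M.H t') / algebraMap E L (M.H t) ∈ Bt t := by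
          rw [← map_div₀]
          exact le_mulA _ (M.rt t t')
        have h2 : (algebraMap E L (M.H t') / algebraMap E L (M.H t)) ^ (n + m) * (x + y) =
            (algebraMap E L (M.H t') / algebraMap E L (M.H t)) ^ m *
              ((algebraMap E L (M.H t') / algebraMap E L (M.H t)) ^ n * x) +
            (algebraMap E L (M.H t') / algebraMap E L (M.H t)) ^ n *
              ((algebraMap E L (M.H t') / algebraMap E L (M.H t)) ^ m * y) := by ring
        rw [h2]
        exact (Bt t).add_mem ((Bt t).mul_mem ((Bt t).pow_mem hr _) hn)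
          ((Bt t).mul_mem ((Bt t).pow_mem hr _) hm)
    obtain ⟨n, hn⟩ := h1
    refine ⟨n, hn, (csts D).mul_mem ((csts D).pow_mem ?_ _) hx.2⟩
    rw [← map_div₀]
    exact hEL _
  · intro t x hx
    have h1 : ∃ n : ℕ, (algebraMap E L (M.H t)) ^ n * x ∈ img k B L := by
      have hH : algebraMap E L (M.H t) ∈ img k B L := by
        obtain ⟨s, hs⟩ := M.HR t
        have hs' : algebraMap R E s = M.H t := hs
        refine ⟨algebraMap R B s, ?_⟩
        change algebraMap B L (algebraMap R B s) = _
        rw [← hs', ← IsScalarTower.algebraMap_apply R B L,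
          ← IsScalarTower.algebraMap_apply R E L]
      refine mulA_induction (P := fun x => ∃ n : ℕ,
        (algebraMap E L (M.H t)) ^ n * x ∈ img k B L) ?_ ?_ hx.1
      · intro a ha b hb
        obtain ⟨n, s, hs⟩ := M.dn t a ha
        have hs' : algebraMap R E s = M.H t ^ n * a := hs
        refine ⟨n, ?_⟩
        rw [← mul_assoc, ← map_pow, ← map_mul, ← hs']
        refine (img k B L).mul_mem ⟨algebraMap R B s, ?_⟩ hb
        change algebraMap B L (algebraMap R B s) = _
        rw [← IsScalarTower.algebraMap_apply R B L, ← IsScalarTower.algebraMap_apply R E L]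
      · rintro x y ⟨n, hn⟩ ⟨m, hm⟩
        refine ⟨n + m, ?_⟩
        have h2 : (algebraMap E L (M.H t)) ^ (n + m) * (x + y) =
            (algebraMap E L (M.H t)) ^ m * ((algebraMap E L (M.H t)) ^ n * x) +
            (algebraMap E L (M.H t)) ^ n * ((algebraMap E L (M.H t)) ^ m * y) := by ring
        rw [h2]
        exact (img k B L).add_mem ((img k B L).mul_mem ((img k B L).pow_mem hH _) hn)
          ((img k B L).mul_mem ((img k B L).pow_mem hH _) hm)
    obtain ⟨n, b, hb⟩ := h1
    have hb' : algebraMap B L b = (algebraMap E L (M.H t)) ^ n * x := hb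
    refine ⟨n, ⟨b, fun i => ?_⟩, ?_⟩
    · rw [hb']
      exact mem_csts.1 ((csts D).mul_mem ((csts D).pow_mem (hEL _) _) hx.2) i
    · rw [hgC]
      exact hb'.symm
  · intro V hV
    have hRV : ∀ a ∈ img k R E, a ∈ V.comap (algebraMap E L) := by
      rintro _ ⟨s, rfl⟩
      change algebraMap E L (algebraMap R E s) ∈ V
      have h1 := hV ⟨algebraMap R B s, fun i => by
        rw [← IsScalarTower.algebraMap_apply R B L, IsScalarTower.algebraMap_apply R E L]
        exact hDE i _⟩
      rw [hgC, ← IsScalarTower.algebraMap_apply R B L,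
        IsScalarTower.algebraMap_apply R E L] at h1
      exact h1
    obtain ⟨t, ht⟩ := M.cv _ hRV
    refine ⟨t, fun x hx => ?_⟩
    refine mulA_induction (P := fun x => x ∈ V) ?_ (fun x y => V.add_mem x y) hx.1
    rintro a ha _ ⟨b, rfl⟩
    refine V.mul_mem _ _ (ht a ha) ?_
    change algebraMap B L b ∈ V
    have h1 := hV ⟨b ^ p, pow_mem_cB hpk D b⟩
    rw [hgC, map_pow] at h1
    rw [← V.valuation_le_one_iff, map_pow] at h1
    rw [← V.valuation_le_one_iff]
    exact (pow_le_one_iff hp.ne_zero).1 h1

end setup

end Pool.Agent.Q40.RS
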